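import Pool.Agent.Helper785_SIEnt.Defs

/-!
# Raising the dimension: `E_d ⊆ E_{d+1}`
-/

set_option autoImplicit false

namespace Pool.Agent.Helper785.SIEnt

open Filter

variable {d : ℕ} {A : Type}

/-- The slice of a configuration at height `t`. -/
def slice (x : (Fin (d + 1) → ℤ) → A) (t : ℤ) : (Fin d → ℤ) → A :=
  fun v => x (Fin.cons t v)

/-- The configurations all of whose slices belong to `X`. -/
def stack (X : Set ((Fin d → ℤ) → A)) : Set ((Fin (d + 1) → ℤ) → A) :=
  {x | ∀ t : ℤ, slice x t ∈ X}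

/-- The pattern, placed in a slice. -/
def Pattern.raise (P : Pattern d A) : Pattern (d + 1) A where
  supp := P.supp.map ⟨fun v => Fin.cons 0 v, fun _ _ h => (Fin.cons_inj.1 h).2⟩
  val := fun v => P.val (Fin.tail v)

theorem raise_occurs (P : Pattern d A) (x : (Fin (d + 1) → ℤ) → A) (v : Fin (d + 1) → ℤ) :
    P.raise.OccursAt x v ↔ P.OccursAt (slice x (v 0)) (Fin.tail v) := by
  unfold Pattern.OccursAt Pattern.raise slice
  simp only [Finset.mem_map, Function.Embedding.coeFn_mk, forall_exists_index, and_imp,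
    forall_apply_eq_imp_iff₂, Fin.tail_cons]
  refine forall₂_congr (fun s _ => ?_)
  have : v + Fin.cons 0 s = (Fin.cons (v 0) (Fin.tail v + s) : Fin (d + 1) → ℤ) := by
    funext i
    refine Fin.cases ?_ (fun i => ?_) i
    · simp
    · simp [Fin.tail]
  rw [this]

theorem sft_raise (L : List (Pattern d A)) :
    sft (L.map Pattern.raise) = stack (sft L) := by
  ext x
  simp only [sft, stack, List.mem_map, forall_exists_index, and_imp, forall_apply_eq_imp_iff₂,
    Set.mem_ofPred_eq, raise_occurs]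
  constructor
  · intro h t P hP v
    have := h P hP (Fin.cons t v)
    simpa using this
  · intro h P hP v
    exact h (v 0) P hP (Fin.tail v)

theorem stack_nonempty {X : Set ((Fin d → ℤ) → A)} (h : X.Nonempty) : (stack X).Nonempty := by
  obtain ⟨x, hx⟩ := h
  refine ⟨fun v => x (Fin.tail v), fun t => ?_⟩
  have : slice (fun v : Fin (d + 1) → ℤ => x (Fin.tail v)) t = x := by
    funext v
    simp [slice]
  rw [this]
  exact hx

theorem stack_si {X : Set ((Fin d → ℤ) → A)} (h : StronglyIrreducible X) :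
    StronglyIrreducible (stack X) := by
  obtain ⟨M, hM, h⟩ := h
  refine ⟨M, hM, fun F G hFG x hx y hy => ?_⟩
  have key : ∀ t : ℤ, ∃ z ∈ X, (∀ u : Fin d → ℤ, (Fin.cons t u : Fin (d + 1) → ℤ) ∈ F →
      z u = slice x t u) ∧
      (∀ u : Fin d → ℤ, (Fin.cons t u : Fin (d + 1) → ℤ) ∈ G → z u = slice y t u) := by
    intro t
    refine h {u | (Fin.cons t u : Fin (d + 1) → ℤ) ∈ F} {u | (Fin.cons t u : Fin (d + 1) → ℤ) ∈ G}
      ?_ _ (hx t) _ (hy t)
    intro u hu v hv
    obtain ⟨i, hi⟩ := hFG _ hu _ hv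
    revert hi
    refine Fin.cases ?_ (fun i => ?_) i
    · intro hi
      simp at hi
      omega
    · intro hi
      exact ⟨i, by simpa using hi⟩
  choose z hz1 hz2 hz3 using key
  refine ⟨fun v => z (v 0) (Fin.tail v), ?_, ?_, ?_⟩
  · intro t
    have : slice (fun v : Fin (d + 1) → ℤ => z (v 0) (Fin.tail v)) t = z t := by
      funext v
      simp [slice]
    rw [this]
    exact hz1 t
  · intro u hu
    have := hz2 (u 0) (Fin.tail u) (by simpa using hu)
    simpa [slice] using this
  · intro u hu
    have := hz3 (u 0) (Fin.tail u) (by simpa using hu)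
    simpa [slice] using this

theorem patternCount_stack [Finite A] {X : Set ((Fin d → ℤ) → A)} (hne : X.Nonempty) (k : ℕ) :
    patternCount (stack X) k = patternCount X k ^ k := by
  classical
  unfold patternCount
  obtain ⟨x0, hx0⟩ := hne
  rw [← Nat.card_coe_set_eq, ← Nat.card_coe_set_eq]
  have hfun : Nat.card (Fin k → ((fun (x : (Fin d → ℤ) → A) (v : cube d k) => x v) '' X)) =
      Nat.card ((fun (x : (Fin d → ℤ) → A) (v : cube d k) => x v) '' X) ^ k := by
    rw [Nat.card_fun]
    simp
  rw [← hfun]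
  have hmem : ∀ (t : Fin k) (v : cube d k), (Fin.cons (t : ℤ) (v : Fin d → ℤ) : Fin (d + 1) → ℤ) ∈
      cube (d + 1) k := by
    intro t v i
    refine Fin.cases ?_ (fun i => ?_) i
    · simp
    · simpa using v.2 i
  have hslice : ∀ (p : ((fun (x : (Fin (d + 1) → ℤ) → A) (v : cube (d + 1) k) => x v) '' stack X))
      (t : Fin k), (fun v : cube d k => p.1 ⟨_, hmem t v⟩) ∈
        ((fun (x : (Fin d → ℤ) → A) (v : cube d k) => x v) '' X) := by
    rintro ⟨p, x, hx, rfl⟩ t
    exact ⟨slice x t, hx t, rfl⟩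
  refine Nat.card_congr (Equiv.ofBijective
    (fun p t => ⟨fun v : cube d k => p.1 ⟨_, hmem t v⟩, hslice p t⟩) ⟨?_, ?_⟩)
  · intro p p' h
    apply Subtype.ext
    funext w
    have h0 := w.2 0
    have ht : (w.1 0).toNat < k := by omega
    have hw : (⟨Fin.cons (((⟨(w.1 0).toNat, ht⟩ : Fin k) : ℕ) : ℤ) (Fin.tail w.1),
        hmem ⟨(w.1 0).toNat, ht⟩ ⟨Fin.tail w.1, fun i => w.2 i.succ⟩⟩ : cube (d + 1) k) = w := by
      apply Subtype.ext
      funext i
      refine Fin.cases ?_ (fun i => ?_) i
      · simp only [Fin.cons_zero]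
        omega
      · simp [Fin.tail]
    have h1 := congrFun h ⟨(w.1 0).toNat, ht⟩
    have h2 := congrFun (Subtype.ext_iff.1 h1) ⟨Fin.tail w.1, fun i => w.2 i.succ⟩
    simp only at h2
    rw [hw] at h2
    exact h2
  · intro g
    have hg : ∀ t : Fin k, ∃ x ∈ X, (fun v : cube d k => x v) = (g t).1 := fun t => (g t).2
    choose x hx1 hx2 using hg
    let y : (Fin (d + 1) → ℤ) → A := fun w =>
      if h : 0 ≤ w 0 ∧ w 0 < (k : ℤ) then x ⟨(w 0).toNat, by omega⟩ (Fin.tail w) else
        x0 (Fin.tail w)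
    have hy : y ∈ stack X := by
      intro t
      by_cases ht : 0 ≤ t ∧ t < (k : ℤ)
      · have : slice y t = x ⟨t.toNat, by omega⟩ := by
          funext v
          simp [slice, y, ht]
        rw [this]
        exact hx1 _
      · have : slice y t = x0 := by
          funext v
          simp only [slice, y, Fin.cons_zero, Fin.tail_cons]
          rw [dif_neg ht]
        rw [this]
        exact hx0
    refine ⟨⟨_, y, hy, rfl⟩, ?_⟩
    funext t
    apply Subtype.ext
    rw [← hx2 t]
    funext v
    have : 0 ≤ ((t : ℕ) : ℤ) ∧ ((t : ℕ) : ℤ) < (k : ℤ) := by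
      constructor
      · omega
      · exact_mod_cast t.2
    simp only [y, Fin.cons_zero, Fin.tail_cons]
    rw [dif_pos this]
    simp

theorem hasEntropy_stack [Finite A] {X : Set ((Fin d → ℤ) → A)} (hne : X.Nonempty) {h : ℝ}
    (hX : HasEntropy X h) : HasEntropy (stack X) h := by
  unfold HasEntropy at *
  refine hX.congr' ?_
  filter_upwards [eventually_gt_atTop 0] with k hk
  rw [patternCount_stack hne, Nat.cast_pow, Real.log_pow]
  have : (k : ℝ) ≠ 0 := by positivity
  field_simp
  ring

/-- `E_d ⊆ E_{d+1}`. -/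
theorem entropySet_succ (d : ℕ) : entropySet d ⊆ entropySet (d + 1) := by
  rintro h ⟨A, hA, L, hne, hsi, hent⟩
  refine ⟨A, hA, L.map Pattern.raise, ?_, ?_, ?_⟩
  · rw [sft_raise]; exact stack_nonempty hne
  · rw [sft_raise]; exact stack_si hsi
  · rw [sft_raise]; exact hasEntropy_stack hne hent

theorem entropySet_mono {d e : ℕ} (h : d ≤ e) : entropySet d ⊆ entropySet e := by
  induction h with
  | refl => exact subset_rfl
  | step _ ih => exact ih.trans (entropySet_succ _)

/-- The one-point shift: `0 ∈ E_d`. -/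
theorem zero_mem_entropySet (d : ℕ) : (0 : ℝ) ∈ entropySet d := by
  refine ⟨Unit, inferInstance, [], ⟨fun _ => (), ?_⟩, ⟨1, le_rfl, ?_⟩, ?_⟩
  · intro P hP; simp at hP
  · intro F G _ x hx y _
    exact ⟨x, hx, fun _ _ => rfl, fun _ _ => rfl⟩
  · unfold HasEntropy
    have : ∀ k, patternCount (sft ([] : List (Pattern d Unit))) k ≤ 1 := by
      intro k
      unfold patternCount
      exact Set.ncard_le_one_of_subsingleton _
    have h0 : ∀ k, Real.log (patternCount (sft ([] : List (Pattern d Unit))) k : ℝ) /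
        (k : ℝ) ^ d = 0 := by
      intro k
      have h1 := this k
      have h2 : patternCount (sft ([] : List (Pattern d Unit))) k = 0 ∨
          patternCount (sft ([] : List (Pattern d Unit))) k = 1 := by omega
      rcases h2 with h2 | h2 <;> simp [h2]
    simp only [h0]
    exact tendsto_const_nhds

end Pool.Agent.Helper785.SIEnt
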