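import Pool.Agent.Helper785_SIEnt.SI
import Pool.Agent.Helper785_SIEnt.Raise
import Pool.Agent.Helper948.Ent.A2

/-!
# From Perron numbers to positive integer matrices

A nonnegative integer matrix with a positive eigenvector has a power that is, on a suitable set of
states which is closed under successors, strictly positive.
-/

set_option autoImplicit false

namespace Pool.Agent.Helper785.SIEnt

open Finset

variable {J : Type} [Fintype J] [DecidableEq J]

theorem pow_pos_iff_add (M : Matrix J J ℕ) {a b : ℕ}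
    (h : ∀ i j, 0 < (M ^ a) i j ↔ 0 < (M ^ b) i j) (t : ℕ) :
    ∀ i j, 0 < (M ^ (a + t)) i j ↔ 0 < (M ^ (b + t)) i j := by
  have key : ∀ (X : Matrix J J ℕ) (i j : J), 0 < (X * M ^ t) i j ↔
      ∃ k, 0 < X i k ∧ 0 < (M ^ t) k j := by
    intro X i j
    rw [Matrix.mul_apply, Nat.pos_iff_ne_zero, Ne, Finset.sum_eq_zero_iff]
    push Not
    constructor
    · rintro ⟨k, _, hk⟩
      exact ⟨k, Nat.pos_of_ne_zero (fun h => hk (by rw [h, zero_mul])),
        Nat.pos_of_ne_zero (fun h => hk (by rw [h, mul_zero]))⟩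
    · rintro ⟨k, h1, h2⟩
      exact ⟨k, Finset.mem_univ _, (Nat.mul_pos h1 h2).ne'⟩
  intro i j
  rw [pow_add, pow_add, key, key]
  exact exists_congr fun k => and_congr_left fun _ => h i k

/-- Some power of a matrix has an idempotent support. -/
theorem exists_idem (M : Matrix J J ℕ) : ∃ N, 0 < N ∧
    ∀ i j, 0 < (M ^ (N + N)) i j ↔ 0 < (M ^ N) i j := by
  classical
  let s : ℕ → J → J → Prop := fun n i j => 0 < (M ^ n) i j
  have hfin : ∃ a b : ℕ, a < b ∧ s a = s b := by
    obtain ⟨a, b, hne, hab⟩ := Finite.exists_ne_map_eq_of_infinite s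
    rcases lt_or_gt_of_ne hne with h | h
    · exact ⟨a, b, h, hab⟩
    · exact ⟨b, a, h, hab.symm⟩
  obtain ⟨a, b, hab, hs⟩ := hfin
  obtain ⟨c, rfl⟩ : ∃ c, b = a + (c + 1) := ⟨b - a - 1, by omega⟩
  have h0 : ∀ i j, 0 < (M ^ (a + (c + 1))) i j ↔ 0 < (M ^ a) i j := fun i j => by
    have := congrFun (congrFun hs i) j
    simp only [s] at this
    rw [this]
  have h1 : ∀ n, a ≤ n → ∀ i j, 0 < (M ^ (n + (c + 1))) i j ↔ 0 < (M ^ n) i j := by
    intro n hn i j
    obtain ⟨t, rfl⟩ := Nat.exists_eq_add_of_le hn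
    have := pow_pos_iff_add M h0 t i j
    rw [show a + (c + 1) + t = a + t + (c + 1) by ring] at this
    exact this
  have h2 : ∀ k n, a ≤ n → ∀ i j, 0 < (M ^ (n + k * (c + 1))) i j ↔ 0 < (M ^ n) i j := by
    intro k
    induction k with
    | zero => intro n _ i j; simp
    | succ k ih =>
      intro n hn i j
      rw [show n + (k + 1) * (c + 1) = n + k * (c + 1) + (c + 1) by ring,
        h1 _ (by omega), ih n hn]
  refine ⟨(a + 1) * (c + 1), by positivity, ?_⟩
  exact h2 (a + 1) _ (by nlinarith)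

/-- The matrix `B` with large entries. -/
theorem exists_large (M : Matrix J J ℕ) [Nonempty J] (ν : J → ℝ) (hν : ∀ j, 0 < ν j) (l : ℝ)
    (hl : 1 < l) (hM : ∀ i, ∑ j, (M i j : ℝ) * ν j = l * ν i) :
    ∃ (C : Type) (_ : Fintype C) (_ : DecidableEq C) (_ : Nonempty C) (B : Matrix C C ℕ)
      (v : C → ℝ) (N : ℕ), 0 < N ∧ (∀ i j, 3 ≤ B i j) ∧ (∀ j, 0 < v j) ∧
      ∀ i, ∑ j, (B i j : ℝ) * v j = l ^ N * v i := by
  classical
  obtain ⟨N, hN, hid⟩ := exists_idem M
  have hMN := pow_mulVec M ν l hM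
  -- successor sets
  let succ : J → Finset J := fun i => Finset.univ.filter (fun j => 0 < (M ^ N) i j)
  have hmem : ∀ i j, j ∈ succ i ↔ 0 < (M ^ N) i j := fun i j => by simp [succ]
  have htrans : ∀ i j, j ∈ succ i → succ j ⊆ succ i := by
    intro i j hj k hk
    rw [hmem] at *
    rw [← hid, pow_add, Matrix.mul_apply]
    exact lt_of_lt_of_le (Nat.mul_pos hj hk)
      (Finset.single_le_sum (f := fun j => (M ^ N) i j * (M ^ N) j k) (fun _ _ => Nat.zero_le _)
        (Finset.mem_univ j))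
  have hne : ∀ i, (succ i).Nonempty := by
    intro i
    by_contra hcon
    rw [Finset.not_nonempty_iff_eq_empty] at hcon
    have h0 : ∀ j, (M ^ N) i j = 0 := by
      intro j
      by_contra h
      have : j ∈ succ i := (hmem i j).2 (Nat.pos_of_ne_zero h)
      rw [hcon] at this
      simp at this
    have := hMN N i
    simp only [h0] at this
    simp at this
    rcases this with h | h
    · have := hl; rw [h.1] at this; linarith
    · have := hν i; linarith
  obtain ⟨i₀, -, hmin⟩ := Finset.exists_min_image (Finset.univ : Finset J)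
    (fun i => (succ i).card) Finset.univ_nonempty
  have hcl : ∀ i ∈ succ i₀, succ i = succ i₀ := fun i hi =>
    Finset.eq_of_subset_of_card_le (htrans i₀ i hi) (hmin i (Finset.mem_univ _))
  -- the restricted matrix
  let C : Type := {j : J // j ∈ succ i₀}
  let B₁ : Matrix C C ℕ := fun i j => (M ^ N) i.1 j.1
  have hB₁ : ∀ i j, 1 ≤ B₁ i j := by
    intro i j
    have : j.1 ∈ succ i.1 := by rw [hcl i.1 i.2]; exact j.2
    exact (hmem _ _).1 this
  have hC : Nonempty C := by
    obtain ⟨j, hj⟩ := hne i₀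
    exact ⟨⟨j, hj⟩⟩
  have hB₁v : ∀ i : C, ∑ j : C, (B₁ i j : ℝ) * ν j.1 = l ^ N * ν i.1 := by
    intro i
    rw [← hMN N i.1]
    have h1 : ∑ j : C, (B₁ i j : ℝ) * ν j.1 =
        ∑ j ∈ succ i₀, ((M ^ N) i.1 j : ℝ) * ν j := by
      exact Finset.sum_coe_sort (succ i₀) (fun j => ((M ^ N) i.1 j : ℝ) * ν j)
    rw [h1]
    refine Finset.sum_subset (Finset.subset_univ _) (fun j _ hj => ?_)
    have : (M ^ N) i.1 j = 0 := by
      by_contra h
      apply hj
      rw [← hcl i.1 i.2]
      exact (hmem _ _).2 (Nat.pos_of_ne_zero h)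
    rw [this]
    simp
  have hlN : 1 < l ^ N := one_lt_pow₀ hl hN.ne'
  -- the third power has entries at least three
  have h3 : ∀ i j, 3 ≤ (B₁ ^ 3) i j := by
    intro i j
    have e : (B₁ ^ 3) i j = ∑ k, (∑ m, B₁ i m * B₁ m k) * B₁ k j := by
      rw [pow_succ, pow_two, Matrix.mul_apply]
      exact Finset.sum_congr rfl (fun k _ => by rw [Matrix.mul_apply])
    rw [e]
    rcases Nat.lt_or_ge 1 (Fintype.card C) with hc | hc
    · have h5 : ∀ k, 2 ≤ (∑ m, B₁ i m * B₁ m k) * B₁ k j := by
        intro k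
        have h6 : 2 ≤ ∑ m, B₁ i m * B₁ m k := by
          calc 2 ≤ ∑ _m : C, 1 := by
                rw [Finset.sum_const, Finset.card_univ, smul_eq_mul]
                omega
            _ ≤ _ := Finset.sum_le_sum (fun m _ => Nat.mul_pos (hB₁ _ _) (hB₁ _ _))
        calc 2 ≤ ∑ m, B₁ i m * B₁ m k := h6
          _ ≤ _ := Nat.le_mul_of_pos_right _ (hB₁ _ _)
      calc 3 ≤ ∑ _k : C, 2 := by
            rw [Finset.sum_const, Finset.card_univ, smul_eq_mul]
            omega
        _ ≤ _ := Finset.sum_le_sum (fun k _ => h5 k)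
    · have hsub : ∀ k m : C, k = m := fun k m => by
        have := Fintype.card_le_one_iff.1 hc
        exact this k m
      have hcard : Fintype.card C = 1 := by
        have : 0 < Fintype.card C := Fintype.card_pos
        omega
      have h7 : ∀ (f : C → ℕ) (m : C), ∑ k, f k = f m := by
        intro f m
        rw [Finset.sum_eq_single m]
        · intro k _ hk; exact absurd (hsub k m) hk
        · intro h; exact absurd (Finset.mem_univ _) h
      have h8 : ∀ (f : C → ℝ) (m : C), ∑ k, f k = f m := by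
        intro f m
        rw [Finset.sum_eq_single m]
        · intro k _ hk; exact absurd (hsub k m) hk
        · intro h; exact absurd (Finset.mem_univ _) h
      have h9 := hB₁v i
      rw [h8 _ i] at h9
      have h10 : (B₁ i i : ℝ) = l ^ N := mul_right_cancel₀ (hν i.1).ne' h9
      have h11 : 1 < B₁ i i := by
        have : (1 : ℝ) < (B₁ i i : ℝ) := by rw [h10]; exact hlN
        exact_mod_cast this
      rw [h7 _ i, h7 _ i]
      rw [hsub j i]
      have h12 : 2 ≤ B₁ i i := h11
      calc 3 ≤ 2 * 2 * 2 := by norm_num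
        _ ≤ B₁ i i * B₁ i i * B₁ i i := by
          exact Nat.mul_le_mul (Nat.mul_le_mul h12 h12) h12
  refine ⟨C, inferInstance, inferInstance, hC, B₁ ^ 3, fun j => ν j.1, N * 3, by positivity, h3,
    fun j => hν j.1, ?_⟩
  intro i
  rw [pow_mulVec B₁ (fun j : C => ν j.1) (l ^ N) hB₁v 3 i, ← pow_mul]

/-- **Main theorem.** For `d ≥ 2`, all nonnegative rational multiples of logarithms of Perron
numbers are entropies of strongly irreducible `ℤ^d`-shifts of finite type. -/
theorem rat_mul_log_mem {d : ℕ} (hd : 2 ≤ d) (q : ℚ) (hq : 0 ≤ q) (l : ℝ) (hl : IsPerron l) :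
    (q : ℝ) * Real.log l ∈ entropySet d := by
  classical
  obtain ⟨h1, h2, h3⟩ := hl
  rcases h1.eq_or_lt with h | h
  · rw [← h, Real.log_one, mul_zero]
    exact zero_mem_entropySet d
  rcases hq.eq_or_lt with hq0 | hq0
  · rw [← hq0]
    simp only [Rat.cast_zero, zero_mul]
    exact zero_mem_entropySet d
  obtain ⟨J, hJ1, hJ2, A, ν, hν, hA⟩ := Pool.Agent.Helper948.Ent.A2.lind l h1 h2 h3
  let M : Matrix J J ℕ := fun i j => A j i
  have hM : ∀ i, ∑ j, (M i j : ℝ) * ν j = l * ν i := by
    intro i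
    rw [← hA i]
    exact Finset.sum_congr rfl (fun j _ => mul_comm _ _)
  -- the numerator
  have hnum : 0 < q.num := Rat.num_pos.2 hq0
  obtain ⟨a, ha⟩ : ∃ a : ℕ, (a : ℤ) = q.num := ⟨q.num.toNat, Int.toNat_of_nonneg hnum.le⟩
  have ha0 : 0 < a := by omega
  have hMa := pow_mulVec M ν l hM a
  obtain ⟨C, hC1, hC2, hC3, B, v, N, hN, hB, hv, hBv⟩ :=
    exists_large (M ^ a) ν hν (l ^ a) (one_lt_pow₀ h ha0.ne') hMa
  have hl0 : 0 < l := by linarith
  have hkey : Real.log (l ^ (q : ℝ)) ∈ entropySet 2 := by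
    refine log_mem_entropySet_two B hB v hv (q.den * N) (Nat.mul_pos q.den_pos hN) _
      (Real.rpow_pos_of_pos hl0 _) ?_
    intro i
    rw [hBv i]
    congr 1
    rw [← Real.rpow_natCast (l ^ (q : ℝ)), ← Real.rpow_mul hl0.le, ← pow_mul,
      ← Real.rpow_natCast l]
    congr 1
    have hqd : (q : ℝ) * q.den = a := by
      have h4 : q * q.den = q.num := Rat.mul_den_eq_num q
      have h5 : ((q * q.den : ℚ) : ℝ) = ((q.num : ℚ) : ℝ) := by rw [h4]
      push_cast at h5
      rw [h5, ← ha]
      push_cast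
      rfl
    push_cast
    rw [← hqd]
    ring
  rw [Real.log_rpow hl0] at hkey
  exact entropySet_mono hd hkey

end Pool.Agent.Helper785.SIEnt
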