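import Pool.Agent.Helper785_SIEnt.Defs

/-!
# Corner rules with balanced weights

A corner rule is a relation `R a b c` between the symbol `a` on the left, the symbol `b` below
and the symbol `c` of a site. If there are positive weights with
`∑_{c : R a b c} α c β c = κ α a β b` for all `a, b`, the entropy of the shift is `log κ`.
-/

set_option autoImplicit false

namespace Pool.Agent.Helper785.SIEnt

open Filter Finset

variable {A : Type}

/-- The shift of the corner rule `R`. -/
def cornerSet (R : A → A → A → Prop) : Set ((Fin 2 → ℤ) → A) :=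
  {x | ∀ i j : ℤ, R (x ![i - 1, j]) (x ![i, j - 1]) (x ![i, j])}

/-- The forbidden pattern of a triple. -/
def cornerPattern (t : A × A × A) : Pattern 2 A where
  supp := {![-1, 0], ![0, -1], ![0, 0]}
  val := fun s => if s = ![-1, 0] then t.1 else if s = ![0, -1] then t.2.1 else t.2.2

theorem cornerPattern_occurs (t : A × A × A) (x : (Fin 2 → ℤ) → A) (i j : ℤ) :
    (cornerPattern t).OccursAt x ![i, j] ↔
      x ![i - 1, j] = t.1 ∧ x ![i, j - 1] = t.2.1 ∧ x ![i, j] = t.2.2 := by
  unfold Pattern.OccursAt cornerPattern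
  have h1 : (![0, -1] : Fin 2 → ℤ) ≠ ![-1, 0] := by
    intro h; have := congrFun h 0; simp at this
  have h2 : (![0, 0] : Fin 2 → ℤ) ≠ ![-1, 0] := by
    intro h; have := congrFun h 0; simp at this
  have h3 : (![0, 0] : Fin 2 → ℤ) ≠ ![0, -1] := by
    intro h; have := congrFun h 1; simp at this
  simp only [Finset.mem_insert, Finset.mem_singleton, forall_eq_or_imp, forall_eq, if_true,
    if_neg h1, if_neg h2, if_neg h3]
  have e1 : (![i, j] : Fin 2 → ℤ) + ![-1, 0] = ![i - 1, j] := by
    ext k; fin_cases k <;> simp [sub_eq_add_neg]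
  have e2 : (![i, j] : Fin 2 → ℤ) + ![0, -1] = ![i, j - 1] := by
    ext k; fin_cases k <;> simp [sub_eq_add_neg]
  have e3 : (![i, j] : Fin 2 → ℤ) + ![0, 0] = ![i, j] := by
    ext k; fin_cases k <;> simp
  rw [e1, e2, e3]

theorem vec2_eta (v : Fin 2 → ℤ) : ![v 0, v 1] = v := by
  ext k; fin_cases k <;> simp

/-- The shift of a corner rule is of finite type. -/
theorem exists_sft_eq_cornerSet [Finite A] (R : A → A → A → Prop) :
    ∃ L : List (Pattern 2 A), sft L = cornerSet R := by
  classical
  have := Fintype.ofFinite A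
  refine ⟨((Finset.univ : Finset (A × A × A)).filter
    (fun t => ¬ R t.1 t.2.1 t.2.2)).toList.map cornerPattern, ?_⟩
  ext x
  simp only [sft, cornerSet, List.mem_map, Finset.mem_toList, Finset.mem_filter,
    Finset.mem_univ, true_and, forall_exists_index, and_imp, forall_apply_eq_imp_iff₂,
    Set.mem_ofPred_eq]
  constructor
  · intro h i j
    by_contra hR
    exact h (x ![i - 1, j], x ![i, j - 1], x ![i, j]) hR ![i, j]
      ((cornerPattern_occurs _ _ _ _).2 ⟨rfl, rfl, rfl⟩)
  · intro h t ht v hv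
    rw [← vec2_eta v, cornerPattern_occurs] at hv
    apply ht
    rw [← hv.1, ← hv.2.1, ← hv.2.2]
    exact h _ _

/-- `c` is a row of symbols which obeys the rule, with `a` on its left and `b` below it. -/
def RowOK (R : A → A → A → Prop) {n : ℕ} (a : A) (b c : Fin n → A) : Prop :=
  ∀ i : Fin n, R ((Fin.cons a c : Fin (n + 1) → A) i.castSucc) (b i) (c i)

theorem rowOK_cons (R : A → A → A → Prop) {n : ℕ} (a : A) (b : Fin (n + 1) → A) (c0 : A)
    (c : Fin n → A) :
    RowOK R a b (Fin.cons c0 c : Fin (n + 1) → A) ↔ R a (b 0) c0 ∧ RowOK R c0 (Fin.tail b) c := by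
  unfold RowOK
  rw [Fin.forall_fin_succ]
  simp only [Fin.castSucc_zero, Fin.cons_zero, Fin.cons_succ, Fin.tail]
  refine and_congr Iff.rfl (forall_congr' fun i => ?_)
  rw [← Fin.succ_castSucc, Fin.cons_succ]

/-- `c` is a box of symbols which obeys the rule, with `L` on its left and `D` below it. -/
def BoxOK (R : A → A → A → Prop) {m n : ℕ} (L : Fin m → A) (D : Fin n → A)
    (c : Fin m → Fin n → A) : Prop :=
  ∀ j : Fin m, RowOK R (L j) ((Fin.cons D c : Fin (m + 1) → Fin n → A) j.castSucc) (c j)

theorem boxOK_cons (R : A → A → A → Prop) {m n : ℕ} (L : Fin (m + 1) → A) (D : Fin n → A)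
    (c0 : Fin n → A) (c : Fin m → Fin n → A) :
    BoxOK R L D (Fin.cons c0 c : Fin (m + 1) → Fin n → A) ↔
      RowOK R (L 0) D c0 ∧ BoxOK R (Fin.tail L) c0 c := by
  unfold BoxOK
  rw [Fin.forall_fin_succ]
  simp only [Fin.castSucc_zero, Fin.cons_zero, Fin.cons_succ, Fin.tail]
  refine and_congr Iff.rfl (forall_congr' fun i => ?_)
  rw [← Fin.succ_castSucc, Fin.cons_succ]

/-- The balance equation of a corner rule. -/
def Balanced [Fintype A] (R : A → A → A → Prop) (α β : A → ℝ) (κ : ℝ) : Prop :=
  by classical exact ∀ a b : A, ∑ c : A, (if R a b c then α c * β c else 0) = κ * α a * β b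

open Classical in
theorem row_sum [Fintype A] {R : A → A → A → Prop} {α β : A → ℝ} {κ : ℝ}
    (hb : Balanced R α β κ) : ∀ (n : ℕ) (a : A) (b : Fin n → A),
    ∑ c : Fin n → A, (if RowOK R a b c then
      α ((Fin.cons a c : Fin (n + 1) → A) (Fin.last n)) * ∏ i, β (c i) else 0) =
      κ ^ n * α a * ∏ i, β (b i) := by
  intro n
  induction n with
  | zero =>
    intro a b
    have : ∀ c : Fin 0 → A, RowOK R a b c := fun c i => i.elim0
    simp [this]
  | succ n ih =>
    intro a b
    rw [← (Fin.consEquiv (fun _ : Fin (n + 1) => A)).sum_comp, Fintype.sum_prod_type]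
    have h1 : ∀ c0 : A, ∑ c : Fin n → A, (if RowOK R a b
        ((Fin.consEquiv (fun _ : Fin (n + 1) => A)) (c0, c)) then
        α ((Fin.cons a ((Fin.consEquiv (fun _ : Fin (n + 1) => A)) (c0, c)) :
          Fin (n + 2) → A) (Fin.last (n + 1))) *
          ∏ i, β ((Fin.consEquiv (fun _ : Fin (n + 1) => A)) (c0, c) i) else 0) =
        (if R a (b 0) c0 then α c0 * β c0 else 0) * (κ ^ n * ∏ i, β (Fin.tail b i)) := by
      intro c0
      have h2 : ∀ c : Fin n → A, (if RowOK R a b
        ((Fin.consEquiv (fun _ : Fin (n + 1) => A)) (c0, c)) then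
        α ((Fin.cons a ((Fin.consEquiv (fun _ : Fin (n + 1) => A)) (c0, c)) :
          Fin (n + 2) → A) (Fin.last (n + 1))) *
          ∏ i, β ((Fin.consEquiv (fun _ : Fin (n + 1) => A)) (c0, c) i) else 0) =
        (if R a (b 0) c0 then β c0 else 0) * (if RowOK R c0 (Fin.tail b) c then
          α ((Fin.cons c0 c : Fin (n + 1) → A) (Fin.last n)) * ∏ i, β (c i) else 0) := by
        intro c
        have e : (Fin.consEquiv (fun _ : Fin (n + 1) => A)) (c0, c) =
          (Fin.cons c0 c : Fin (n + 1) → A) := rfl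
        rw [e, rowOK_cons, Fin.prod_univ_succ]
        have e2 : (Fin.cons a (Fin.cons c0 c : Fin (n + 1) → A) : Fin (n + 2) → A)
          (Fin.last (n + 1)) = (Fin.cons c0 c : Fin (n + 1) → A) (Fin.last n) := by
          rw [← Fin.succ_last, Fin.cons_succ]
        rw [e2]
        by_cases hR : R a (b 0) c0
        · by_cases hr : RowOK R c0 (Fin.tail b) c
          · simp [hR, hr]; ring
          · simp [hR, hr]
        · simp [hR]
      rw [Finset.sum_congr rfl (fun c _ => h2 c), ← Finset.mul_sum, ih]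
      by_cases hR : R a (b 0) c0
      · simp [hR]; ring
      · simp [hR]
    rw [Finset.sum_congr rfl (fun c0 _ => h1 c0), ← Finset.sum_mul, hb a (b 0),
      Fin.prod_univ_succ]
    simp only [Fin.tail]
    ring

open Classical in
theorem box_sum [Fintype A] {R : A → A → A → Prop} {α β : A → ℝ} {κ : ℝ}
    (hb : Balanced R α β κ) (n : ℕ) : ∀ (m : ℕ) (L : Fin m → A) (D : Fin n → A),
    ∑ c : Fin m → Fin n → A, (if BoxOK R L D c then
      (∏ j, α ((Fin.cons (L j) (c j) : Fin (n + 1) → A) (Fin.last n))) *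
        ∏ i, β ((Fin.cons D c : Fin (m + 1) → Fin n → A) (Fin.last m) i) else 0) =
      κ ^ (n * m) * (∏ j, α (L j)) * ∏ i, β (D i) := by
  intro m
  induction m with
  | zero =>
    intro L D
    have : ∀ c : Fin 0 → Fin n → A, BoxOK R L D c := fun c i => i.elim0
    simp [this]
  | succ m ih =>
    intro L D
    rw [← (Fin.consEquiv (fun _ : Fin (m + 1) => Fin n → A)).sum_comp, Fintype.sum_prod_type]
    have h1 : ∀ c0 : Fin n → A, ∑ c : Fin m → Fin n → A, (if BoxOK R L D
        ((Fin.consEquiv (fun _ : Fin (m + 1) => Fin n → A)) (c0, c)) then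
        (∏ j, α ((Fin.cons (L j) ((Fin.consEquiv (fun _ : Fin (m + 1) => Fin n → A)) (c0, c) j) :
          Fin (n + 1) → A) (Fin.last n))) *
        ∏ i, β ((Fin.cons D ((Fin.consEquiv (fun _ : Fin (m + 1) => Fin n → A)) (c0, c)) :
          Fin (m + 2) → Fin n → A) (Fin.last (m + 1)) i) else 0) =
        (if RowOK R (L 0) D c0 then
          α ((Fin.cons (L 0) c0 : Fin (n + 1) → A) (Fin.last n)) * ∏ i, β (c0 i) else 0) *
          (κ ^ (n * m) * ∏ j, α (Fin.tail L j)) := by
      intro c0
      have h2 : ∀ c : Fin m → Fin n → A, (if BoxOK R L D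
        ((Fin.consEquiv (fun _ : Fin (m + 1) => Fin n → A)) (c0, c)) then
        (∏ j, α ((Fin.cons (L j) ((Fin.consEquiv (fun _ : Fin (m + 1) => Fin n → A)) (c0, c) j) :
          Fin (n + 1) → A) (Fin.last n))) *
        ∏ i, β ((Fin.cons D ((Fin.consEquiv (fun _ : Fin (m + 1) => Fin n → A)) (c0, c)) :
          Fin (m + 2) → Fin n → A) (Fin.last (m + 1)) i) else 0) =
        (if RowOK R (L 0) D c0 then
          α ((Fin.cons (L 0) c0 : Fin (n + 1) → A) (Fin.last n)) else 0) *
        (if BoxOK R (Fin.tail L) c0 c then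
          (∏ j, α ((Fin.cons (Fin.tail L j) (c j) : Fin (n + 1) → A) (Fin.last n))) *
          ∏ i, β ((Fin.cons c0 c : Fin (m + 1) → Fin n → A) (Fin.last m) i) else 0) := by
        intro c
        have e : (Fin.consEquiv (fun _ : Fin (m + 1) => Fin n → A)) (c0, c) =
          (Fin.cons c0 c : Fin (m + 1) → Fin n → A) := rfl
        rw [e, boxOK_cons, Fin.prod_univ_succ]
        have e2 : (Fin.cons D (Fin.cons c0 c : Fin (m + 1) → Fin n → A) :
          Fin (m + 2) → Fin n → A) (Fin.last (m + 1)) =
            (Fin.cons c0 c : Fin (m + 1) → Fin n → A) (Fin.last m) := by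
          rw [← Fin.succ_last, Fin.cons_succ]
        rw [e2]
        simp only [Fin.cons_zero, Fin.cons_succ, Fin.tail]
        by_cases hR : RowOK R (L 0) D c0
        · by_cases hr : BoxOK R (Fin.tail L) c0 c
          · simp only [hR, hr, and_self, if_true]; ring
          · simp only [hR, hr, and_false, if_true, if_false, mul_zero]
        · simp [hR]
      rw [Finset.sum_congr rfl (fun c _ => h2 c), ← Finset.mul_sum, ih]
      by_cases hR : RowOK R (L 0) D c0
      · simp [hR]; ring
      · simp [hR]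
    rw [Finset.sum_congr rfl (fun c0 _ => h1 c0), ← Finset.sum_mul, row_sum hb,
      Fin.prod_univ_succ]
    simp only [Fin.tail]
    ring

end Pool.Agent.Helper785.SIEnt
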