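import Pool.Agent.Helper785_SIEnt.Corner

/-!
# The entropy of a balanced corner rule
-/

set_option autoImplicit false

namespace Pool.Agent.Helper785.SIEnt

open Filter Finset

variable {A : Type}

theorem prod_bounds {ι : Type} [Fintype ι] (f : ι → ℝ) {C : ℝ} (hC : 1 ≤ C)
    (h1 : ∀ i, C⁻¹ ≤ f i) (h2 : ∀ i, f i ≤ C) :
    C⁻¹ ^ Fintype.card ι ≤ ∏ i, f i ∧ ∏ i, f i ≤ C ^ Fintype.card ι := by
  have hC0 : 0 < C := lt_of_lt_of_le one_pos hC
  constructor
  · rw [← Finset.card_univ, ← Finset.prod_const]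
    exact Finset.prod_le_prod (fun i _ => (inv_pos.2 hC0).le) (fun i _ => h1 i)
  · rw [← Finset.card_univ, ← Finset.prod_const]
    exact Finset.prod_le_prod (fun i _ => (inv_pos.2 hC0).le.trans (h1 i)) (fun i _ => h2 i)

open Classical in
theorem box_count [Fintype A] {R : A → A → A → Prop} {α β : A → ℝ} {κ : ℝ}
    (hb : Balanced R α β κ) (hκ : 0 < κ) {C : ℝ} (hC : 1 ≤ C)
    (hα : ∀ a, C⁻¹ ≤ α a ∧ α a ≤ C) (hβ : ∀ a, C⁻¹ ≤ β a ∧ β a ≤ C)
    (k : ℕ) (L D : Fin k → A) :
    (Fintype.card {c : Fin k → Fin k → A // BoxOK R L D c} : ℝ) ≤ κ ^ (k * k) * (C ^ 4) ^ k ∧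
    κ ^ (k * k) ≤ (Fintype.card {c : Fin k → Fin k → A // BoxOK R L D c} : ℝ) * (C ^ 4) ^ k := by
  have hC0 : 0 < C := lt_of_lt_of_le one_pos hC
  have hs := box_sum hb k k L D
  have hcard : (Fintype.card {c : Fin k → Fin k → A // BoxOK R L D c} : ℝ) =
      ∑ c : Fin k → Fin k → A, (if BoxOK R L D c then (1 : ℝ) else 0) := by
    rw [Finset.sum_boole, Fintype.card_subtype]
  have hw : ∀ c : Fin k → Fin k → A,
      (C⁻¹ ^ k * C⁻¹ ^ k ≤ (∏ j, α ((Fin.cons (L j) (c j) : Fin (k + 1) → A) (Fin.last k))) *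
        ∏ i, β ((Fin.cons D c : Fin (k + 1) → Fin k → A) (Fin.last k) i)) ∧
      ((∏ j, α ((Fin.cons (L j) (c j) : Fin (k + 1) → A) (Fin.last k))) *
        ∏ i, β ((Fin.cons D c : Fin (k + 1) → Fin k → A) (Fin.last k) i) ≤ C ^ k * C ^ k) := by
    intro c
    have h1 := prod_bounds (fun j : Fin k =>
      α ((Fin.cons (L j) (c j) : Fin (k + 1) → A) (Fin.last k))) hC (fun j => (hα _).1)
      (fun j => (hα _).2)
    have h2 := prod_bounds (fun i : Fin k =>
      β ((Fin.cons D c : Fin (k + 1) → Fin k → A) (Fin.last k) i)) hC (fun j => (hβ _).1)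
      (fun j => (hβ _).2)
    simp only [Fintype.card_fin] at h1 h2
    have hp : 0 < C⁻¹ ^ k := by positivity
    exact ⟨mul_le_mul h1.1 h2.1 hp.le (hp.le.trans h1.1),
      mul_le_mul h1.2 h2.2 (hp.le.trans h2.1) (by positivity)⟩
  have hW : C⁻¹ ^ k * C⁻¹ ^ k ≤ (∏ j, α (L j)) * ∏ i, β (D i) ∧
      (∏ j, α (L j)) * ∏ i, β (D i) ≤ C ^ k * C ^ k := by
    have h1 := prod_bounds (fun j : Fin k => α (L j)) hC (fun j => (hα _).1) (fun j => (hα _).2)
    have h2 := prod_bounds (fun j : Fin k => β (D j)) hC (fun j => (hβ _).1) (fun j => (hβ _).2)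
    simp only [Fintype.card_fin] at h1 h2
    have hp : 0 < C⁻¹ ^ k := by positivity
    exact ⟨mul_le_mul h1.1 h2.1 hp.le (hp.le.trans h1.1),
      mul_le_mul h1.2 h2.2 (hp.le.trans h2.1) (by positivity)⟩
  have hlow : (Fintype.card {c : Fin k → Fin k → A // BoxOK R L D c} : ℝ) * (C⁻¹ ^ k * C⁻¹ ^ k) ≤
      κ ^ (k * k) * (C ^ k * C ^ k) := by
    rw [hcard, Finset.sum_mul]
    calc _ ≤ ∑ c : Fin k → Fin k → A, (if BoxOK R L D c then
          (∏ j, α ((Fin.cons (L j) (c j) : Fin (k + 1) → A) (Fin.last k))) *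
        ∏ i, β ((Fin.cons D c : Fin (k + 1) → Fin k → A) (Fin.last k) i) else 0) := by
            refine Finset.sum_le_sum (fun c _ => ?_)
            by_cases h : BoxOK R L D c
            · simp only [h, if_true, one_mul]; exact (hw c).1
            · simp [h]
      _ = κ ^ (k * k) * (∏ j, α (L j)) * ∏ i, β (D i) := hs
      _ ≤ κ ^ (k * k) * (C ^ k * C ^ k) := by
            rw [mul_assoc]
            exact mul_le_mul_of_nonneg_left hW.2 (by positivity)
  have hupp : κ ^ (k * k) * (C⁻¹ ^ k * C⁻¹ ^ k) ≤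
      (Fintype.card {c : Fin k → Fin k → A // BoxOK R L D c} : ℝ) * (C ^ k * C ^ k) := by
    rw [hcard, Finset.sum_mul]
    calc κ ^ (k * k) * (C⁻¹ ^ k * C⁻¹ ^ k) ≤ κ ^ (k * k) * (∏ j, α (L j)) * ∏ i, β (D i) := by
            rw [mul_assoc]
            exact mul_le_mul_of_nonneg_left hW.1 (by positivity)
      _ = _ := hs.symm
      _ ≤ _ := by
            refine Finset.sum_le_sum (fun c _ => ?_)
            by_cases h : BoxOK R L D c
            · simp only [h, if_true, one_mul]; exact (hw c).2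
            · simp [h]
  have hCC : C ^ k * C⁻¹ ^ k = 1 := by
    rw [← mul_pow, mul_inv_cancel₀ hC0.ne', one_pow]
  have hC4 : (C ^ 4) ^ k = C ^ k * C ^ k * (C ^ k * C ^ k) := by
    rw [← pow_mul]; ring
  constructor
  · calc (Fintype.card {c : Fin k → Fin k → A // BoxOK R L D c} : ℝ)
        = ((Fintype.card {c : Fin k → Fin k → A // BoxOK R L D c} : ℝ) *
          (C⁻¹ ^ k * C⁻¹ ^ k)) * (C ^ k * C ^ k) := by
            linear_combination (-(Fintype.card {c : Fin k → Fin k → A // BoxOK R L D c} : ℝ)) *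
              (C ^ k * C⁻¹ ^ k + 1) * hCC
      _ ≤ (κ ^ (k * k) * (C ^ k * C ^ k)) * (C ^ k * C ^ k) :=
            mul_le_mul_of_nonneg_right hlow (by positivity)
      _ = _ := by rw [hC4]; ring
  · calc κ ^ (k * k) = (κ ^ (k * k) * (C⁻¹ ^ k * C⁻¹ ^ k)) * (C ^ k * C ^ k) := by
            linear_combination (-(κ ^ (k * k))) * (C ^ k * C⁻¹ ^ k + 1) * hCC
      _ ≤ ((Fintype.card {c : Fin k → Fin k → A // BoxOK R L D c} : ℝ) * (C ^ k * C ^ k)) *
          (C ^ k * C ^ k) := mul_le_mul_of_nonneg_right hupp (by positivity)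
      _ = _ := by rw [hC4]; ring

/-- The box of symbols of a configuration is a box which obeys the rule. -/
theorem boxOK_of_mem {R : A → A → A → Prop} {x : (Fin 2 → ℤ) → A} (hx : x ∈ cornerSet R)
    (k : ℕ) : BoxOK R (fun j : Fin k => x ![-1, (j : ℕ)]) (fun i : Fin k => x ![(i : ℕ), -1])
      (fun j i => x ![(i : ℕ), (j : ℕ)]) := by
  intro j i
  have h := hx (i : ℕ) (j : ℕ)
  have e1 : (Fin.cons (x ![-1, (j : ℕ)]) (fun i : Fin k => x ![(i : ℕ), (j : ℕ)]) :
      Fin (k + 1) → A) i.castSucc = x ![(i : ℕ) - 1, (j : ℕ)] := by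
    rcases i with ⟨i, hi⟩
    cases i with
    | zero => simp
    | succ i =>
      have : (Fin.castSucc ⟨i + 1, hi⟩ : Fin (k + 1)) = Fin.succ ⟨i, by omega⟩ := by
        ext; simp
      rw [this, Fin.cons_succ]
      simp
  have e2 : (Fin.cons (fun i : Fin k => x ![(i : ℕ), -1])
      (fun (j : Fin k) (i : Fin k) => x ![(i : ℕ), (j : ℕ)]) :
      Fin (k + 1) → Fin k → A) j.castSucc i = x ![(i : ℕ), (j : ℕ) - 1] := by
    rcases j with ⟨j, hj⟩
    cases j with
    | zero => simp
    | succ j =>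
      have : (Fin.castSucc ⟨j + 1, hj⟩ : Fin (k + 1)) = Fin.succ ⟨j, by omega⟩ := by
        ext; simp
      rw [this, Fin.cons_succ]
      simp
  rw [e1, e2]
  exact h

section Extend

variable (R : A → A → A → Prop) (nxt : A → A → A)

/-- Fill a row from left to right, with prescribed symbols where `ov` gives one. -/
def rowFill (a : A) (b : ℕ → A) (ov : ℕ → Option A) : ℕ → A
  | 0 => (ov 0).getD (nxt a (b 0))
  | i + 1 => (ov (i + 1)).getD (nxt (rowFill a b ov i) (b (i + 1)))

/-- Fill a quadrant row by row. -/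
def quadFill (L : ℕ → A) (D : ℕ → A) (ov : ℕ → ℕ → Option A) : ℕ → ℕ → A
  | 0 => rowFill nxt (L 0) D (ov 0)
  | j + 1 => rowFill nxt (L (j + 1)) (quadFill L D ov j) (ov (j + 1))

end Extend

/-- Every box with the boundary of `x₀` which obeys the rule extends to a configuration. -/
theorem exists_extension {R : A → A → A → Prop} {nxt : A → A → A}
    (hn : ∀ a b, R a b (nxt a b)) {x₀ : (Fin 2 → ℤ) → A} (hx : x₀ ∈ cornerSet R) (k : ℕ)
    (c : Fin k → Fin k → A)
    (hc : BoxOK R (fun j : Fin k => x₀ ![-1, (j : ℕ)]) (fun i : Fin k => x₀ ![(i : ℕ), -1]) c) :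
    ∃ z ∈ cornerSet R, ∀ j i : Fin k, z ![(i : ℕ), (j : ℕ)] = c j i := by
  classical
  let ov : ℕ → ℕ → Option A := fun j i =>
    if h : j < k ∧ i < k then some (c ⟨j, h.1⟩ ⟨i, h.2⟩) else none
  let g : ℕ → ℕ → A := quadFill nxt (fun j => x₀ ![-1, (j : ℕ)]) (fun i => x₀ ![(i : ℕ), -1]) ov
  let bel : ℕ → ℕ → A := fun j => Nat.casesOn j (fun i => x₀ ![(i : ℕ), -1]) (fun j => g j)
  have hg : ∀ j, g j = rowFill nxt (x₀ ![-1, (j : ℕ)]) (bel j) (ov j) := by
    intro j
    cases j with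
    | zero => rfl
    | succ j => rfl
  let lef : ℕ → ℕ → A := fun j i => Nat.casesOn i (x₀ ![-1, (j : ℕ)]) (fun i => g j i)
  have hg2 : ∀ j i, g j i = (ov j i).getD (nxt (lef j i) (bel j i)) := by
    intro j i
    rw [hg j]
    cases i with
    | zero => rfl
    | succ i =>
      show (ov j (i + 1)).getD (nxt (rowFill nxt (x₀ ![-1, (j : ℕ)]) (bel j) (ov j) i)
        (bel j (i + 1))) = _
      rw [← hg j]
  have hin : ∀ (j i : ℕ) (hj : j < k) (hi : i < k), g j i = c ⟨j, hj⟩ ⟨i, hi⟩ := by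
    intro j i hj hi
    rw [hg2]
    simp [ov, hj, hi]
  have hR : ∀ j i, R (lef j i) (bel j i) (g j i) := by
    intro j i
    by_cases h : j < k ∧ i < k
    · obtain ⟨hj, hi⟩ := h
      have := hc ⟨j, hj⟩ ⟨i, hi⟩
      rw [hin j i hj hi]
      have e1 : (Fin.cons (x₀ ![-1, (j : ℕ)]) (c ⟨j, hj⟩) : Fin (k + 1) → A)
          (Fin.castSucc ⟨i, hi⟩) = lef j i := by
        cases i with
        | zero => simp [lef]
        | succ i =>
          have : (Fin.castSucc ⟨i + 1, hi⟩ : Fin (k + 1)) = Fin.succ ⟨i, by omega⟩ := by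
            ext; simp
          rw [this, Fin.cons_succ]
          exact (hin j i hj (by omega)).symm
      have e2 : (Fin.cons (fun i : Fin k => x₀ ![(i : ℕ), -1]) c : Fin (k + 1) → Fin k → A)
          (Fin.castSucc ⟨j, hj⟩) ⟨i, hi⟩ = bel j i := by
        cases j with
        | zero => simp [bel]
        | succ j =>
          have : (Fin.castSucc ⟨j + 1, hj⟩ : Fin (k + 1)) = Fin.succ ⟨j, by omega⟩ := by
            ext; simp
          rw [this, Fin.cons_succ]
          exact (hin j i (by omega) hi).symm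
      rw [← e1, ← e2]
      exact this
    · rw [hg2]
      have : ov j i = none := by simp only [ov]; rw [dif_neg h]
      rw [this]
      exact hn _ _
  let z : (Fin 2 → ℤ) → A := fun v => if 0 ≤ v 0 ∧ 0 ≤ v 1 then g (v 1).toNat (v 0).toNat else x₀ v
  refine ⟨z, ?_, ?_⟩
  · intro i j
    by_cases h : 0 ≤ i ∧ 0 ≤ j
    · obtain ⟨hi, hj⟩ := h
      obtain ⟨i, rfl⟩ := Int.eq_ofNat_of_zero_le hi
      obtain ⟨j, rfl⟩ := Int.eq_ofNat_of_zero_le hj
      have e0 : z ![(i : ℤ), (j : ℤ)] = g j i := by simp [z]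
      have e1 : z ![(i : ℤ) - 1, (j : ℤ)] = lef j i := by
        cases i with
        | zero => simp [z, lef]
        | succ i => simp [z, lef]
      have e2 : z ![(i : ℤ), (j : ℤ) - 1] = bel j i := by
        cases j with
        | zero => simp [z, bel]
        | succ j => simp [z, bel]
      rw [e0, e1, e2]
      exact hR j i
    · have e0 : z ![i, j] = x₀ ![i, j] := by
        simp only [z]; rw [if_neg]; simpa using h
      have e1 : z ![i - 1, j] = x₀ ![i - 1, j] := by
        simp only [z]; rw [if_neg]; simp; omega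
      have e2 : z ![i, j - 1] = x₀ ![i, j - 1] := by
        simp only [z]; rw [if_neg]; simp; omega
      rw [e0, e1, e2]
      exact hx i j
  · intro j i
    have : z ![((i : ℕ) : ℤ), ((j : ℕ) : ℤ)] = g j i := by simp [z]
    rw [this, hin j i j.2 i.2]

/-- The pattern on the cube given by a box of symbols. -/
def boxPattern {k : ℕ} (c : Fin k → Fin k → A) : cube 2 k → A :=
  fun v => c ⟨(v.1 1).toNat, by have := v.2 1; omega⟩ ⟨(v.1 0).toNat, by have := v.2 0; omega⟩

theorem mem_cube2 {k : ℕ} (i j : Fin k) : (![((i : ℕ) : ℤ), ((j : ℕ) : ℤ)] : Fin 2 → ℤ) ∈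
    cube 2 k := by
  intro l
  fin_cases l <;> simp

theorem boxPattern_injective {k : ℕ} : Function.Injective (boxPattern (A := A) (k := k)) := by
  intro c c' h
  funext j i
  have := congrFun h ⟨_, mem_cube2 i j⟩
  simpa [boxPattern] using this

theorem boxPattern_eq {k : ℕ} (c : Fin k → Fin k → A) (x : (Fin 2 → ℤ) → A)
    (h : ∀ j i : Fin k, x ![(i : ℕ), (j : ℕ)] = c j i) :
    (fun v : cube 2 k => x v) = boxPattern c := by
  funext v
  have h0 := v.2 0
  have h1 := v.2 1
  unfold boxPattern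
  rw [← h]
  congr 1
  funext l
  fin_cases l
  · simp only [Fin.zero_eta, Matrix.cons_val_zero]
    omega
  · simp only [Fin.mk_one, Matrix.cons_val_one, Matrix.cons_val_fin_one]
    omega

open Classical in
/-- The number of patterns of a balanced corner rule. -/
theorem patternCount_bounds [Fintype A] {R : A → A → A → Prop} {α β : A → ℝ} {κ : ℝ}
    (hb : Balanced R α β κ) (hκ : 0 < κ) {C : ℝ} (hC : 1 ≤ C)
    (hα : ∀ a, C⁻¹ ≤ α a ∧ α a ≤ C) (hβ : ∀ a, C⁻¹ ≤ β a ∧ β a ≤ C)
    (hne : (cornerSet R).Nonempty) (k : ℕ) :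
    (patternCount (cornerSet R) k : ℝ) ≤
      ((Fintype.card A : ℝ) ^ 2 * C ^ 4) ^ k * κ ^ (k * k) ∧
    κ ^ (k * k) ≤ (patternCount (cornerSet R) k : ℝ) * (C ^ 4) ^ k := by
  have hC0 : 0 < C := lt_of_lt_of_le one_pos hC
  have hfin : ((fun (x : (Fin 2 → ℤ) → A) (v : cube 2 k) => x v) '' cornerSet R).Finite := by
    have : ((fun (x : (Fin 2 → ℤ) → A) (v : cube 2 k) => x v) '' cornerSet R) ⊆
        Set.range (boxPattern (A := A) (k := k)) := by
      rintro _ ⟨x, hx, rfl⟩
      exact ⟨fun j i => x ![(i : ℕ), (j : ℕ)], (boxPattern_eq _ x (fun _ _ => rfl)).symm⟩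
    exact (Set.finite_range _).subset this
  constructor
  · have h1 : patternCount (cornerSet R) k ≤
        Fintype.card (Σ t : (Fin k → A) × (Fin k → A),
          {c : Fin k → Fin k → A // BoxOK R t.1 t.2 c}) := by
      unfold patternCount
      rw [← Nat.card_coe_set_eq, ← Nat.card_eq_fintype_card]
      have hch : ∀ p : ((fun (x : (Fin 2 → ℤ) → A) (v : cube 2 k) => x v) '' cornerSet R),
          ∃ x ∈ cornerSet R, (fun v : cube 2 k => x v) = p.1 := fun p => p.2
      choose x hx1 hx2 using hch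
      refine Nat.card_le_card_of_injective
        (fun p => (⟨(fun j => x p ![-1, (j : ℕ)], fun i => x p ![(i : ℕ), -1]),
          ⟨_, boxOK_of_mem (hx1 p) k⟩⟩ : Σ t : (Fin k → A) × (Fin k → A),
          {c : Fin k → Fin k → A // BoxOK R t.1 t.2 c})) ?_
      intro p p' h
      have h3 : (fun (j i : Fin k) => x p ![(i : ℕ), (j : ℕ)]) =
          (fun (j i : Fin k) => x p' ![(i : ℕ), (j : ℕ)]) := by
        have := congrArg (fun s : (Σ t : (Fin k → A) × (Fin k → A),
          {c : Fin k → Fin k → A // BoxOK R t.1 t.2 c}) => s.2.1) h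
        exact this
      apply Subtype.ext
      rw [← hx2 p, ← hx2 p', boxPattern_eq _ (x p) (fun _ _ => rfl),
        boxPattern_eq _ (x p') (fun _ _ => rfl), h3]
    have h2 : (Fintype.card (Σ t : (Fin k → A) × (Fin k → A),
          {c : Fin k → Fin k → A // BoxOK R t.1 t.2 c}) : ℝ) ≤
        ((Fintype.card A : ℝ) ^ 2 * C ^ 4) ^ k * κ ^ (k * k) := by
      rw [Fintype.card_sigma, Nat.cast_sum]
      calc _ ≤ ∑ t : (Fin k → A) × (Fin k → A), κ ^ (k * k) * (C ^ 4) ^ k :=
            Finset.sum_le_sum (fun t _ => (box_count hb hκ hC hα hβ k t.1 t.2).1)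
        _ = _ := by
          rw [Finset.sum_const, Finset.card_univ, Fintype.card_prod, Fintype.card_fun,
            Fintype.card_fin, nsmul_eq_mul]
          push_cast
          ring
    exact le_trans (by exact_mod_cast h1) h2
  · obtain ⟨x₀, hx₀⟩ := hne
    have hn : ∀ a b, ∃ c, R a b c := by
      intro a b
      by_contra hcon
      push Not at hcon
      have := hb a b
      simp only [hcon, if_false, Finset.sum_const_zero] at this
      have ha : 0 < α a := lt_of_lt_of_le (inv_pos.2 hC0) (hα a).1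
      have hbb : 0 < β b := lt_of_lt_of_le (inv_pos.2 hC0) (hβ b).1
      have : 0 < κ * α a * β b := by positivity
      linarith
    choose nxt hnxt using hn
    have h1 := (box_count hb hκ hC hα hβ k (fun j : Fin k => x₀ ![-1, (j : ℕ)])
      (fun i : Fin k => x₀ ![(i : ℕ), -1])).2
    refine h1.trans (mul_le_mul_of_nonneg_right ?_ (by positivity))
    have h2 : Fintype.card {c : Fin k → Fin k → A // BoxOK R
        (fun j : Fin k => x₀ ![-1, (j : ℕ)]) (fun i : Fin k => x₀ ![(i : ℕ), -1]) c} ≤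
        patternCount (cornerSet R) k := by
      unfold patternCount
      rw [← Nat.card_coe_set_eq, ← Nat.card_eq_fintype_card]
      have : Finite ((fun (x : (Fin 2 → ℤ) → A) (v : cube 2 k) => x v) '' cornerSet R) := hfin
      refine Nat.card_le_card_of_injective (fun c => ⟨boxPattern c.1, ?_⟩) ?_
      · obtain ⟨z, hz, hz2⟩ := exists_extension hnxt hx₀ k c.1 c.2
        exact ⟨z, hz, boxPattern_eq _ z hz2⟩
      · intro c c' h
        apply Subtype.ext
        exact boxPattern_injective (Subtype.ext_iff.1 h)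
    exact_mod_cast h2

/-- The entropy of a balanced corner rule is `log κ`. -/
theorem hasEntropy_of_balanced [Fintype A] {R : A → A → A → Prop} {α β : A → ℝ} {κ : ℝ}
    (hb : Balanced R α β κ) (hκ : 0 < κ) (hα : ∀ a, 0 < α a) (hβ : ∀ a, 0 < β a)
    (hne : (cornerSet R).Nonempty) : HasEntropy (cornerSet R) (Real.log κ) := by
  classical
  obtain ⟨x₀, hx₀⟩ := hne
  have hA : Nonempty A := ⟨x₀ 0⟩
  obtain ⟨C, hC, hCα, hCβ⟩ : ∃ C : ℝ, 1 ≤ C ∧ (∀ a, C⁻¹ ≤ α a ∧ α a ≤ C) ∧
      (∀ a, C⁻¹ ≤ β a ∧ β a ≤ C) := by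
    refine ⟨1 + ∑ a, (α a + (α a)⁻¹ + β a + (β a)⁻¹), ?_, ?_, ?_⟩
    · have : 0 ≤ ∑ a, (α a + (α a)⁻¹ + β a + (β a)⁻¹) := by
        refine Finset.sum_nonneg (fun a _ => ?_)
        have := hα a; have := hβ a; positivity
      linarith
    · intro a
      have h1 : α a + (α a)⁻¹ + β a + (β a)⁻¹ ≤ ∑ a, (α a + (α a)⁻¹ + β a + (β a)⁻¹) :=
        Finset.single_le_sum (f := fun a => α a + (α a)⁻¹ + β a + (β a)⁻¹)
          (fun b _ => by have := hα b; have := hβ b; positivity) (Finset.mem_univ a)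
      have h2 := hα a
      have h3 := hβ a
      have h4 : 0 < (α a)⁻¹ := by positivity
      have h5 : 0 < (β a)⁻¹ := by positivity
      constructor
      · rw [inv_le_comm₀ (by linarith) h2]
        linarith
      · linarith
    · intro a
      have h1 : α a + (α a)⁻¹ + β a + (β a)⁻¹ ≤ ∑ a, (α a + (α a)⁻¹ + β a + (β a)⁻¹) :=
        Finset.single_le_sum (f := fun a => α a + (α a)⁻¹ + β a + (β a)⁻¹)
          (fun b _ => by have := hα b; have := hβ b; positivity) (Finset.mem_univ a)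
      have h2 := hα a
      have h3 := hβ a
      have h4 : 0 < (α a)⁻¹ := by positivity
      have h5 : 0 < (β a)⁻¹ := by positivity
      constructor
      · rw [inv_le_comm₀ (by linarith) h3]
        linarith
      · linarith
  have hC0 : 0 < C := lt_of_lt_of_le one_pos hC
  have hcard : (1 : ℝ) ≤ Fintype.card A := by exact_mod_cast Fintype.card_pos
  set K : ℝ := (Fintype.card A : ℝ) ^ 2 * C ^ 4 with hK
  have hC4 : 1 ≤ C ^ 4 := one_le_pow₀ hC
  have hK1 : C ^ 4 ≤ K := by
    rw [hK]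
    have : (1 : ℝ) ≤ (Fintype.card A : ℝ) ^ 2 := one_le_pow₀ hcard
    nlinarith
  have hK0 : 0 < K := lt_of_lt_of_le (by positivity) hK1
  have hbd : ∀ k : ℕ, 0 < k → |Real.log (patternCount (cornerSet R) k : ℝ) / (k : ℝ) ^ 2 -
      Real.log κ| ≤ Real.log K / k := by
    intro k hk
    obtain ⟨h1, h2⟩ := patternCount_bounds hb hκ hC hCα hCβ ⟨x₀, hx₀⟩ k
    have hk0 : (0 : ℝ) < k := by exact_mod_cast hk
    have hN : 0 < (patternCount (cornerSet R) k : ℝ) := by
      by_contra hcon
      have h0 : (patternCount (cornerSet R) k : ℝ) = 0 := le_antisymm (not_lt.1 hcon) (by positivity)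
      rw [h0, zero_mul] at h2
      have : 0 < κ ^ (k * k) := by positivity
      linarith
    have l1 : Real.log (patternCount (cornerSet R) k : ℝ) ≤ k * Real.log K +
        (k : ℝ) ^ 2 * Real.log κ := by
      have := Real.log_le_log hN h1
      rw [Real.log_mul (by positivity) (by positivity), Real.log_pow, Real.log_pow] at this
      push_cast at this
      nlinarith
    have l2 : (k : ℝ) ^ 2 * Real.log κ ≤ Real.log (patternCount (cornerSet R) k : ℝ) +
        k * Real.log K := by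
      have := Real.log_le_log (by positivity) h2
      rw [Real.log_mul hN.ne' (by positivity), Real.log_pow, Real.log_pow] at this
      have h3 : Real.log (C ^ 4) ≤ Real.log K := Real.log_le_log (by positivity) hK1
      push_cast at this
      nlinarith
    have e1 : Real.log (patternCount (cornerSet R) k : ℝ) / (k : ℝ) ^ 2 - Real.log κ =
        (Real.log (patternCount (cornerSet R) k : ℝ) - (k : ℝ) ^ 2 * Real.log κ) / (k : ℝ) ^ 2 := by
      field_simp
    have e2 : Real.log K / k = (k * Real.log K) / (k : ℝ) ^ 2 := by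
      field_simp
    rw [e1, e2, abs_div, abs_of_pos (show (0 : ℝ) < (k : ℝ) ^ 2 by positivity)]
    refine div_le_div_of_nonneg_right ?_ (by positivity)
    rw [abs_le]
    constructor <;> linarith
  unfold HasEntropy
  rw [tendsto_iff_norm_sub_tendsto_zero]
  refine squeeze_zero' (Eventually.of_forall fun _ => norm_nonneg _) ?_
    (tendsto_const_div_atTop_nhds_zero_nat (Real.log K))
  filter_upwards [eventually_gt_atTop 0] with k hk
  rw [Real.norm_eq_abs]
  exact hbd k hk

end Pool.Agent.Helper785.SIEnt
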