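import Mathlib

/-!
# Entropies of strongly irreducible multidimensional shifts of finite type: definitions
-/

set_option autoImplicit false

namespace Pool.Agent.Helper785.SIEnt

/-- A finite pattern on `ℤ^d`: a finite support `supp`, and a value `val s` at each place `s`
of the support (the values outside the support play no role). -/
structure Pattern (d : ℕ) (A : Type) where
  /-- the support -/
  supp : Finset (Fin d → ℤ)
  /-- the values on the support -/
  val : (Fin d → ℤ) → A

/-- The translate by `v` of the pattern `P` occurs in the configuration `x`. -/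
def Pattern.OccursAt {d : ℕ} {A : Type} (P : Pattern d A) (x : (Fin d → ℤ) → A)
    (v : Fin d → ℤ) : Prop :=
  ∀ s ∈ P.supp, x (v + s) = P.val s

/-- The `ℤ^d`-shift of finite type given by a finite list of forbidden patterns. -/
def sft {d : ℕ} {A : Type} (L : List (Pattern d A)) : Set ((Fin d → ℤ) → A) :=
  {x | ∀ P ∈ L, ∀ v : Fin d → ℤ, ¬ P.OccursAt x v}

/-- Strong irreducibility, for the maximum norm on `ℤ^d`. -/
def StronglyIrreducible {d : ℕ} {A : Type} (X : Set ((Fin d → ℤ) → A)) : Prop :=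
  ∃ M : ℕ, 1 ≤ M ∧ ∀ F G : Set (Fin d → ℤ),
    (∀ u ∈ F, ∀ v ∈ G, ∃ i : Fin d, (M : ℤ) ≤ |u i - v i|) →
    ∀ x ∈ X, ∀ y ∈ X, ∃ z ∈ X, (∀ u ∈ F, z u = x u) ∧ (∀ v ∈ G, z v = y v)

/-- The cube `{0, …, k-1}^d`. -/
def cube (d k : ℕ) : Set (Fin d → ℤ) := {v | ∀ i, 0 ≤ v i ∧ v i < (k : ℤ)}

/-- The number of patterns on the cube `{0, …, k-1}^d` which occur in points of `X`. -/
noncomputable def patternCount {d : ℕ} {A : Type} (X : Set ((Fin d → ℤ) → A)) (k : ℕ) : ℕ :=
  Set.ncard ((fun (x : (Fin d → ℤ) → A) (v : cube d k) => x v) '' X)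

/-- `h` is the topological entropy of `X`. -/
def HasEntropy {d : ℕ} {A : Type} (X : Set ((Fin d → ℤ) → A)) (h : ℝ) : Prop :=
  Filter.Tendsto (fun k : ℕ => Real.log (patternCount X k) / (k : ℝ) ^ d) Filter.atTop (nhds h)

/-- The set `E_d` of the entropies of the nonempty strongly irreducible `ℤ^d`-shifts of finite
type (over all finite alphabets). -/
def entropySet (d : ℕ) : Set ℝ :=
  {h | ∃ (A : Type) (_ : Finite A) (L : List (Pattern d A)),
    (sft L).Nonempty ∧ StronglyIrreducible (sft L) ∧ HasEntropy (sft L) h}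

/-- Perron numbers: the real algebraic integers `l ≥ 1` which are larger than the absolute value
of each of their other conjugates. -/
def IsPerron (l : ℝ) : Prop :=
  1 ≤ l ∧ IsIntegral ℤ l ∧
    ∀ z : ℂ, Polynomial.aeval z (minpoly ℤ l) = 0 → z ≠ (l : ℂ) → ‖z‖ < l

end Pool.Agent.Helper785.SIEnt
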