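import Pool.Agent.Helper785_SIEnt.Rows

/-!
# Gluing rows, and potentials of flows on the plane
-/

set_option autoImplicit false

namespace Pool.Agent.Helper785.SIEnt

open Finset

/-- emissions of a state, as an element of `ZMod p` -/
def ez (p : ℕ) (s : ℕ × ℕ) : ZMod p := (em s.1 s.2 : ℕ)

theorem blk_div {L : ℕ} (k : ℤ) {t : ℕ} (ht : t < L) : (k * L + t) / (L : ℤ) = k := by
  have hL : (0 : ℤ) < L := by omega
  rw [Int.add_comm, Int.add_mul_ediv_right _ _ hL.ne', Int.ediv_eq_zero_of_lt (by omega)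
    (by omega), zero_add]

theorem blk_mod {L : ℕ} (k : ℤ) {t : ℕ} (ht : t < L) : (k * L + t) % (L : ℤ) = t := by
  rw [Int.add_comm, Int.add_mul_emod_self_right, Int.emod_eq_of_lt (by omega) (by omega)]

theorem blk_decomp {L : ℕ} (hL : 0 < L) (c : ℤ) : ∃ (k : ℤ) (t : ℕ), t < L ∧ c = k * L + t := by
  have hL' : (0 : ℤ) < L := by omega
  refine ⟨c / L, (c % L).toNat, ?_, ?_⟩
  · have h1 := Int.emod_nonneg c hL'.ne'
    have h2 := Int.emod_lt_of_pos c hL'
    omega
  · have h1 := Int.emod_nonneg c hL'.ne'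
    rw [Int.toNat_of_nonneg h1]
    have := Int.emod_add_mul_ediv c L
    linarith [Int.mul_comm (c / L) L]

/-- Two rows of cycles can be glued along a union of blocks; the difference of the emissions to
those of `wy` is a gradient that is prescribed on the blocks. -/
theorem row_glue {p : ℕ} (hp : 0 < p) (wx wy : ℤ → ℕ × ℕ)
    (hxv : ∀ c, OV p (wx c)) (hxs : ∀ c, Step p (wx c) (wx (c + 1)))
    (hyv : ∀ c, OV p (wy c)) (hys : ∀ c, Step p (wy c) (wy (c + 1)))
    (ψ : ℤ → ZMod p) (hψ : ∀ c, ψ (c + 1) = ψ c - (ez p (wx (c + 1)) - ez p (wy (c + 1))))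
    (S : ℤ → Prop) :
    ∃ (wz : ℤ → ℕ × ℕ) (ψz : ℤ → ZMod p), (∀ c, OV p (wz c)) ∧
      (∀ c, Step p (wz c) (wz (c + 1))) ∧
      (∀ c, ψz (c + 1) = ψz c - (ez p (wz (c + 1)) - ez p (wy (c + 1)))) ∧
      (∀ k c : ℤ, S k → S (k + 1) → k * LL p ≤ c → c ≤ (k + 1) * LL p →
        wz c = wx c ∧ ψz c = ψ c) ∧
      (∀ k c : ℤ, ¬ S k → ¬ S (k + 1) → k * LL p ≤ c → c ≤ (k + 1) * LL p →
        wz c = wy c ∧ ψz c = 0) := by
  classical
  have hL : 0 < LL p := by unfold LL; omega
  set L := LL p with hLdef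
  let st : ℤ → ℕ × ℕ := fun k => if S k then wx (k * L) else wy (k * L)
  let ps : ℤ → ZMod p := fun k => if S k then ψ (k * L) else 0
  have hst : ∀ k, OV p (st k) := by
    intro k
    simp only [st]
    split_ifs
    · exact hxv _
    · exact hyv _
  -- the sum of the gradient
  have hψsum : ∀ (k : ℤ) (n : ℕ), ψ (k * L + n) = ψ (k * L) -
      ∑ t ∈ range n, (ez p (wx (k * L + t + 1)) - ez p (wy (k * L + t + 1))) := by
    intro k n
    induction n with
    | zero => simp
    | succ n ih =>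
      rw [Finset.sum_range_succ]
      have := hψ (k * L + n)
      push_cast
      rw [← add_assoc, this, ih]
      ring
  have hseg : ∀ k : ℤ, ∃ w : ℕ → ℕ × ℕ, w 0 = st k ∧ w L = st (k + 1) ∧
      (∀ t < L, Step p (w t) (w (t + 1))) ∧
      ps k - ∑ t ∈ range L, (ez p (w (t + 1)) - ez p (wy (k * L + t + 1))) = ps (k + 1) ∧
      (S k → S (k + 1) → ∀ t ≤ L, w t = wx (k * L + t)) ∧
      (¬ S k → ¬ S (k + 1) → ∀ t ≤ L, w t = wy (k * L + t)) := by
    intro k
    have hkL : (k + 1) * (L : ℤ) = k * L + (L : ℕ) := by ring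
    by_cases h1 : S k
    · by_cases h2 : S (k + 1)
      · refine ⟨fun t => wx (k * L + t), ?_, ?_, ?_, ?_, fun _ _ t _ => rfl, fun h => absurd h1 h⟩
        · simp [st, h1]
        · simp only [st, h2, if_true]
          rw [hkL]
        · intro t ht
          have := hxs (k * L + t)
          push_cast
          rw [← add_assoc]
          exact this
        · simp only [ps, h1, h2, if_true]
          rw [hkL, hψsum k L]
          congr 1
          refine Finset.sum_congr rfl (fun t _ => ?_)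
          push_cast
          rw [← add_assoc]
      · obtain ⟨w, hw0, hwL, hws, hwr⟩ := exists_path hp (hst k) (hst (k + 1))
          (ps k - ps (k + 1) + ∑ t ∈ range L, ez p (wy (k * L + t + 1)))
        refine ⟨w, hw0, hwL, hws, ?_, fun _ h => absurd h h2, fun h => absurd h1 h⟩
        rw [Finset.sum_sub_distrib]
        have h3 : ∑ t ∈ range L, ez p (w (t + 1)) = ps k - ps (k + 1) +
            ∑ t ∈ range L, ez p (wy (k * L + t + 1)) := by
          rw [← hwr]; push_cast; rfl
        rw [h3]; ring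
    · by_cases h2 : S (k + 1)
      · obtain ⟨w, hw0, hwL, hws, hwr⟩ := exists_path hp (hst k) (hst (k + 1))
          (ps k - ps (k + 1) + ∑ t ∈ range L, ez p (wy (k * L + t + 1)))
        refine ⟨w, hw0, hwL, hws, ?_, fun h _ => absurd h h1, fun _ h => absurd h2 h⟩
        rw [Finset.sum_sub_distrib]
        have h3 : ∑ t ∈ range L, ez p (w (t + 1)) = ps k - ps (k + 1) +
            ∑ t ∈ range L, ez p (wy (k * L + t + 1)) := by
          rw [← hwr]; push_cast; rfl
        rw [h3]; ring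
      · refine ⟨fun t => wy (k * L + t), ?_, ?_, ?_, ?_, fun h => absurd h h1, fun _ _ t _ => rfl⟩
        · simp [st, h1]
        · simp only [st, h2, if_false]
          rw [hkL]
        · intro t ht
          have := hys (k * L + t)
          push_cast
          rw [← add_assoc]
          exact this
        · simp only [ps, h1, h2, if_false]
          rw [zero_sub, neg_eq_zero]
          refine Finset.sum_eq_zero (fun t _ => ?_)
          push_cast
          rw [← add_assoc, sub_self]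
  choose W hW0 hWL hWs hWr hWx hWy using hseg
  let wz : ℤ → ℕ × ℕ := fun c => W (c / L) (c % L).toNat
  let ψz : ℤ → ZMod p := fun c => ps (c / L) - ∑ t ∈ range (c % L).toNat,
    (ez p (W (c / L) (t + 1)) - ez p (wy ((c / L) * L + t + 1)))
  have hwz : ∀ (k : ℤ) (t : ℕ), t ≤ L → wz (k * L + t) = W k t := by
    intro k t ht
    rcases Nat.lt_or_ge t L with h | h
    · simp only [wz]
      rw [blk_div k h, blk_mod k h, Int.toNat_natCast]
    · have : t = L := le_antisymm ht h
      rw [this]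
      have e : k * (L : ℤ) + (L : ℕ) = (k + 1) * (L : ℤ) + ((0 : ℕ) : ℤ) := by push_cast; ring
      simp only [wz]
      rw [e, blk_div (k + 1) hL, blk_mod (k + 1) hL, Int.toNat_natCast, hW0, hWL]
  have hψz : ∀ (k : ℤ) (t : ℕ), t ≤ L → ψz (k * L + t) = ps k - ∑ s ∈ range t,
      (ez p (W k (s + 1)) - ez p (wy (k * L + s + 1))) := by
    intro k t ht
    rcases Nat.lt_or_ge t L with h | h
    · simp only [ψz]
      rw [blk_div k h, blk_mod k h, Int.toNat_natCast]
    · have : t = L := le_antisymm ht h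
      rw [this]
      have e : k * (L : ℤ) + (L : ℕ) = (k + 1) * (L : ℤ) + ((0 : ℕ) : ℤ) := by push_cast; ring
      simp only [ψz]
      rw [e, blk_div (k + 1) hL, blk_mod (k + 1) hL, Int.toNat_natCast]
      simp only [Finset.range_zero, Finset.sum_empty, sub_zero]
      exact (hWr k).symm
  have hstep : ∀ c, Step p (wz c) (wz (c + 1)) := by
    intro c
    obtain ⟨k, t, ht, rfl⟩ := blk_decomp hL c
    have h1 := hwz k t ht.le
    have h2 := hwz k (t + 1) ht
    have e : k * (L : ℤ) + t + 1 = k * L + ((t + 1 : ℕ) : ℤ) := by push_cast; ring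
    rw [e, h1, h2]
    exact hWs k t ht
  have hval : ∀ (k : ℤ) (t : ℕ), t ≤ L → OV p (W k t) := by
    intro k t
    induction t with
    | zero => intro _; rw [hW0]; exact hst k
    | succ t ih =>
      intro ht
      exact (hWs k t ht).ov (ih (by omega))
  refine ⟨wz, ψz, ?_, hstep, ?_, ?_, ?_⟩
  · intro c
    obtain ⟨k, t, ht, rfl⟩ := blk_decomp hL c
    rw [hwz k t ht.le]
    exact hval k t ht.le
  · intro c
    obtain ⟨k, t, ht, rfl⟩ := blk_decomp hL c
    have e : k * (L : ℤ) + t + 1 = k * L + ((t + 1 : ℕ) : ℤ) := by push_cast; ring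
    rw [e, hψz k t ht.le, hψz k (t + 1) ht, hwz k (t + 1) ht, Finset.sum_range_succ]
    push_cast
    rw [← add_assoc]
    ring
  · intro k c h1 h2 hc1 hc2
    obtain ⟨t, rfl⟩ : ∃ t : ℕ, c = k * L + t := ⟨(c - k * L).toNat, by omega⟩
    have ht : t ≤ L := by
      have : (t : ℤ) ≤ L := by nlinarith
      exact_mod_cast this
    rw [hwz k t ht, hψz k t ht]
    refine ⟨hWx k h1 h2 t ht, ?_⟩
    rw [hψsum k t]
    have hps : ps k = ψ (k * L) := by simp [ps, h1]
    rw [hps]
    congr 1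
    refine Finset.sum_congr rfl (fun s hs => ?_)
    rw [Finset.mem_range] at hs
    rw [hWx k h1 h2 (s + 1) (by omega)]
    push_cast
    rw [← add_assoc]
  · intro k c h1 h2 hc1 hc2
    obtain ⟨t, rfl⟩ : ∃ t : ℕ, c = k * L + t := ⟨(c - k * L).toNat, by omega⟩
    have ht : t ≤ L := by
      have : (t : ℤ) ≤ L := by nlinarith
      exact_mod_cast this
    rw [hwz k t ht, hψz k t ht]
    refine ⟨hWy k h1 h2 t ht, ?_⟩
    have hps : ps k = 0 := by simp [ps, h1]
    rw [hps, zero_sub, neg_eq_zero]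
    refine Finset.sum_eq_zero (fun s hs => ?_)
    rw [Finset.mem_range] at hs
    rw [hWy k h1 h2 (s + 1) (by omega)]
    push_cast
    rw [← add_assoc, sub_self]

/-- Summation on the integers. -/
theorem exists_sum {G : Type} [AddCommGroup G] (g : ℤ → G) :
    ∃ Ψ : ℤ → G, Ψ 0 = 0 ∧ ∀ n, Ψ (n + 1) = Ψ n + g n := by
  refine ⟨fun n => if 0 ≤ n then ∑ t ∈ range n.toNat, g t
    else - ∑ t ∈ range (-n).toNat, g (-1 - t), by simp, ?_⟩
  intro n
  rcases lt_trichotomy n (-1) with h | h | h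
  · obtain ⟨m, rfl⟩ : ∃ m : ℕ, n = -((m : ℤ) + 1) := ⟨(-n - 1).toNat, by omega⟩
    have h1 : ¬ (0 ≤ -((m : ℤ) + 1) + 1) := by omega
    have h2 : ¬ (0 ≤ -((m : ℤ) + 1)) := by omega
    simp only [h1, h2, if_false]
    have e1 : (-(-((m : ℤ) + 1) + 1)).toNat = m := by omega
    have e2 : (-(-((m : ℤ) + 1))).toNat = m + 1 := by omega
    rw [e1, e2, Finset.sum_range_succ]
    have e3 : (-1 - (m : ℤ)) = -((m : ℤ) + 1) := by ring
    rw [e3]
    abel
  · subst h
    simp
  · obtain ⟨m, rfl⟩ : ∃ m : ℕ, n = (m : ℤ) := ⟨n.toNat, by omega⟩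
    have h1 : (0 : ℤ) ≤ (m : ℤ) + 1 := by omega
    have h2 : (0 : ℤ) ≤ (m : ℤ) := by omega
    simp only [h1, h2, if_true]
    have e1 : ((m : ℤ) + 1).toNat = m + 1 := by omega
    rw [e1, Int.toNat_natCast, Finset.sum_range_succ]

/-- A flow without sources on the plane has a potential. -/
theorem exists_potential {G : Type} [AddCommGroup G] (a b : ℤ → ℤ → G)
    (h : ∀ c j, a (c + 1) j = a c j + b (c + 1) (j - 1) - b (c + 1) j) :
    ∃ ψ : ℤ → ℤ → G, (∀ c j, a c j = ψ c j - ψ c (j - 1)) ∧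
      (∀ c j, ψ (c + 1) j = ψ c j - b (c + 1) j) := by
  obtain ⟨Φ, -, hΦ⟩ := exists_sum (fun j => a 0 (j + 1))
  have hrow : ∀ j : ℤ, ∃ Ψ : ℤ → G, Ψ 0 = 0 ∧ ∀ n, Ψ (n + 1) = Ψ n + (- b (n + 1) j) := fun j =>
    exists_sum _
  choose Ψ hΨ0 hΨ using hrow
  refine ⟨fun c j => Φ j + Ψ j c, ?_, ?_⟩
  · intro c j
    have hΦ' : Φ j = Φ (j - 1) + a 0 j := by
      have := hΦ (j - 1)
      simpa using this
    have key : ∀ c : ℤ, (a (c + 1) j - (Φ j + Ψ j (c + 1) - (Φ (j - 1) + Ψ (j - 1) (c + 1)))) =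
        (a c j - (Φ j + Ψ j c - (Φ (j - 1) + Ψ (j - 1) c))) := by
      intro c
      rw [hΨ, hΨ, h]
      abel
    have h0 : a 0 j - (Φ j + Ψ j 0 - (Φ (j - 1) + Ψ (j - 1) 0)) = 0 := by
      rw [hΨ0, hΨ0, hΦ']; abel
    have hall : a c j - (Φ j + Ψ j c - (Φ (j - 1) + Ψ (j - 1) c)) = 0 := by
      induction c using Int.induction_on with
      | zero => exact h0
      | succ i ih => rw [key]; exact ih
      | pred i ih =>
        have := key (-(i : ℤ) - 1)
        rw [sub_add_cancel] at this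
        rw [← this]; exact ih
    exact sub_eq_zero.1 hall
  · intro c j
    show Φ j + Ψ j (c + 1) = Φ j + Ψ j c - b (c + 1) j
    rw [hΨ]
    abel

end Pool.Agent.Helper785.SIEnt
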