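import Pool.Agent.Helper785_SIEnt.Glue

/-!
# Configurations from their cycle structure and their flow
-/

set_option autoImplicit false

namespace Pool.Agent.Helper785.SIEnt

open Finset

variable {J : Type}

/-- A point of the shift (as a function of column and row). -/
def Point [Fintype J] [DecidableEq J] (B : Matrix J J ℕ) (p K : ℕ) (x : ℤ → ℤ → Sym J) : Prop :=
  (∀ c j, Valid p K (x c j)) ∧ ∀ c j, Rule B p (x (c - 1) j) (x c (j - 1)) (x c j)

/-- The cycle structure of a configuration. -/
def cyc (x : ℤ → ℤ → Sym J) (c j : ℤ) : ℕ × ℕ := (min (x c j).l 2, (x c j).q)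

/-- The flow of a configuration. -/
def flow (p : ℕ) (x : ℤ → ℤ → Sym J) (c j : ℤ) : ZMod p := ((x c j).u : ZMod p)

theorem em_min (l q : ℕ) : em (min l 2) q = em l q := by
  unfold em
  have : min l 2 = 1 ↔ l = 1 := by omega
  simp [this]

theorem len_min (p l : ℕ) : len p (min l 2) = len p l := by
  unfold len
  have : min l 2 = 0 ↔ l = 0 := by omega
  simp [this]

theorem ez_cyc (p : ℕ) (x : ℤ → ℤ → Sym J) (c j : ℤ) :
    ez p (cyc x c j) = ((em (x c j).l (x c j).q : ℕ) : ZMod p) := by
  unfold ez cyc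
  simp only [em_min]

theorem cyc_ov {p K : ℕ} {x : ℤ → ℤ → Sym J} (h : ∀ c j, Valid p K (x c j)) (c j : ℤ) :
    OV p (cyc x c j) := by
  refine ⟨?_, ?_⟩
  · exact min_le_right _ _
  · show (x c j).q < len p (min (x c j).l 2)
    rw [len_min]
    exact (h c j).2.1

variable [Fintype J] [DecidableEq J]

theorem cyc_step {B : Matrix J J ℕ} {p K : ℕ} {x : ℤ → ℤ → Sym J} (h : Point B p K x)
    (c j : ℤ) : Step p (cyc x (c - 1) j) (cyc x c j) := by
  unfold Step cyc
  simp only [len_min]
  rcases h.2 c j with ⟨h1, h2, h3, h4, h5⟩ | ⟨h1, h2, h3, h4⟩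
  · left
    exact ⟨h1, by rw [h3, h4]⟩
  · right
    exact ⟨h1, min_le_right _ _, h2⟩

theorem flow_eq {B : Matrix J J ℕ} {p K : ℕ} {x : ℤ → ℤ → Sym J} (h : Point B p K x)
    (c j : ℤ) : flow p x c j = flow p x (c - 1) j + 1 + ez p (cyc x c (j - 1)) -
      ez p (cyc x c j) := by
  unfold flow
  rw [ez_cyc, ez_cyc]
  rcases h.2 c j with ⟨h1, h2, h3, h4, h5⟩ | ⟨h1, h2, h3, h4⟩
  · have := congrArg (Nat.cast (R := ZMod p)) h5
    push_cast at this
    rw [eq_sub_iff_add_eq]
    exact this
  · have h6 : em (x c j).l (x c j).q = 0 := by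
      rw [h2]; unfold em; simp
    rw [h6, h3, ZMod.natCast_mod]
    push_cast
    ring

/-- The counter which belongs to a cycle structure and a flow. -/
def ctr {p : ℕ} (w : ℤ → ℤ → ℕ × ℕ) (f : ℤ → ℤ → ZMod p) : ℕ → ℤ → ℤ → ℕ
  | 0, c, j => (f c j).val
  | n + 1, c, j => ctr w f n (c - 1) j + 1 + em (w c (j - 1)).1 (w c (j - 1)).2 -
      em (w c j).1 (w c j).2

theorem ctr_congr {p : ℕ} {w w' : ℤ → ℤ → ℕ × ℕ} {f f' : ℤ → ℤ → ZMod p} (j : ℤ) :
    ∀ (n : ℕ) (c : ℤ), (∀ c', c - n ≤ c' → c' ≤ c → w c' j = w' c' j ∧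
      w c' (j - 1) = w' c' (j - 1) ∧ f c' j = f' c' j) → ctr w f n c j = ctr w' f' n c j := by
  intro n
  induction n with
  | zero =>
    intro c h
    unfold ctr
    rw [(h c (by simp) le_rfl).2.2]
  | succ n ih =>
    intro c h
    unfold ctr
    rw [ih (c - 1) (fun c' h1 h2 => h c' (by push_cast; linarith) (by linarith)),
      (h c (by push_cast; linarith) le_rfl).1, (h c (by push_cast; linarith) le_rfl).2.1]

/-- In a path of cycles, the predecessor of a positive position. -/
theorem Step.pred {p : ℕ} {s s' : ℕ × ℕ} (h : Step p s s') {n : ℕ} (hn : s'.2 = n + 1) :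
    s = (s'.1, n) := by
  rcases h with ⟨_, rfl⟩ | ⟨_, _, h3⟩
  · simp only at hn ⊢
    have : s.2 = n := by omega
    rw [← this]
  · omega

theorem cycle_back {p : ℕ} {w : ℤ → ℕ × ℕ} (hs : ∀ c, Step p (w (c - 1)) (w c)) :
    ∀ (n : ℕ) (c : ℤ) (m : ℕ), w c = (m, n) → ∀ t : ℕ, t ≤ n → w (c - t) = (m, n - t) := by
  intro n
  induction n with
  | zero =>
    intro c m h t ht
    have : t = 0 := by omega
    subst this
    simpa using h
  | succ n ih =>
    intro c m h t ht
    cases t with
    | zero => simpa using h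
    | succ t =>
      have h1 : w (c - 1) = (m, n) := by
        have := (hs c).pred (n := n) (by rw [h])
        rw [this, h]
      have := ih (c - 1) m h1 t (by omega)
      push_cast
      rw [show c - ((t : ℤ) + 1) = c - 1 - t by ring, this]

theorem ctr_spec {p : ℕ} [NeZero p] {w : ℤ → ℤ → ℕ × ℕ} {f : ℤ → ℤ → ZMod p} (j : ℤ)
    (hs : ∀ c, Step p (w (c - 1) j) (w c j))
    (hf : ∀ c, f c j = f (c - 1) j + 1 + ez p (w c (j - 1)) - ez p (w c j)) :
    ∀ (n : ℕ) (c : ℤ), (w c j).2 = n →
      (ctr w f n c j : ZMod p) = f c j ∧ ctr w f n c j < p + 2 * n := by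
  intro n
  induction n with
  | zero =>
    intro c _
    unfold ctr
    refine ⟨ZMod.natCast_zmod_val _, ?_⟩
    have := ZMod.val_lt (f c j)
    omega
  | succ n ih =>
    intro c h
    have h1 : (w (c - 1) j).2 = n := by rw [(hs c).pred h]
    obtain ⟨h2, h3⟩ := ih (c - 1) h1
    have he := em_le (w c j).1 (w c j).2
    have he' := em_le (w c (j - 1)).1 (w c (j - 1)).2
    unfold ctr
    constructor
    · rw [Nat.cast_sub (by omega)]
      push_cast
      rw [h2, hf c]
      rfl
    · omega

/-- The counter of a point is determined by its cycle structure and its flow. -/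
theorem ctr_point {B : Matrix J J ℕ} {p K : ℕ} (hp : 0 < p) {x : ℤ → ℤ → Sym J}
    (h : Point B p K x) (j : ℤ) : ∀ (n : ℕ) (c : ℤ), (x c j).q = n →
      (x c j).u = ctr (cyc x) (flow p x) n c j := by
  have : NeZero p := ⟨hp.ne'⟩
  intro n
  induction n with
  | zero =>
    intro c hc
    unfold ctr flow
    have := (h.1 c j).2.2
    rw [hc] at this
    rw [ZMod.val_natCast, Nat.mod_eq_of_lt (by omega)]
  | succ n ih =>
    intro c hc
    rcases h.2 c j with ⟨h1, h2, h3, h4, h5⟩ | ⟨h1, h2, h3, h4⟩
    · have hq : (x (c - 1) j).q = n := by omega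
      unfold ctr
      rw [← ih (c - 1) hq]
      unfold cyc
      simp only [em_min]
      omega
    · omega

/-- The state of the matrix and the label are constant along a cycle. -/
theorem point_back {B : Matrix J J ℕ} {p K : ℕ} {x : ℤ → ℤ → Sym J}
    (h : Point B p K x) (j : ℤ) : ∀ (n : ℕ) (c : ℤ), (x c j).q = n → ∀ t : ℕ, t ≤ n →
      (x (c - t) j).i = (x c j).i ∧ (x (c - t) j).l = (x c j).l ∧ (x (c - t) j).q = n - t := by
  intro n
  induction n with
  | zero =>
    intro c hc t ht
    have : t = 0 := by omega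
    subst this
    simpa using hc
  | succ n ih =>
    intro c hc t ht
    cases t with
    | zero => simpa using hc
    | succ t =>
      rcases h.2 c j with ⟨h1, h2, h3, h4, h5⟩ | ⟨h1, h2, h3, h4⟩
      · have hq : (x (c - 1) j).q = n := by omega
        have := ih (c - 1) hq t (by omega)
        push_cast
        rw [show c - ((t : ℤ) + 1) = c - 1 - t by ring]
        refine ⟨this.1.trans h2.symm, this.2.1.trans h3.symm, ?_⟩
        rw [this.2.2]
      · omega

/-- Realisation of a cycle structure and a flow by a point, with prescribed preferences for the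
states and the labels. -/
theorem realize {B : Matrix J J ℕ} {p K : ℕ} (hp : 0 < p) (hB : ∀ e, 0 < e → ∀ i j, 3 ≤ (B ^ e) i j)
    (hK : ∀ e ≤ 3 * p + 3, ∀ i j, (B ^ e) i j ≤ K)
    (w : ℤ → ℤ → ℕ × ℕ) (f : ℤ → ℤ → ZMod p) (I : ℤ → ℤ → J) (lp : ℤ → ℤ → ℕ)
    (hw : ∀ c j, OV p (w c j)) (hs : ∀ c j, Step p (w (c - 1) j) (w c j))
    (hf : ∀ c j, f c j = f (c - 1) j + 1 + ez p (w c (j - 1)) - ez p (w c j)) :
    ∃ z : ℤ → ℤ → Sym J, Point B p K z ∧ ∀ x : ℤ → ℤ → Sym J, Point B p K x → ∀ c j : ℤ,
      (∀ c', c - (2 * p + 6) ≤ c' → c' ≤ c → w c' j = cyc x c' j ∧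
        w c' (j - 1) = cyc x c' (j - 1) ∧ f c' j = flow p x c' j ∧ I c' j = (x c' j).i ∧
        lp c' j = (x c' j).l) → z c j = x c j := by
  classical
  have : NeZero p := ⟨hp.ne'⟩
  let i' : ℤ → ℤ → J := fun c j => I (c - (w c j).2) j
  let u' : ℤ → ℤ → ℕ := fun c j => ctr w f (w c j).2 c j
  let S : ℤ → ℤ → ℕ := fun a j => u' (a - 1) j + 1 + em (w a (j - 1)).1 (w a (j - 1)).2
  let lab : ℤ → ℤ → ℕ := fun a j =>
    if min (lp a j) 2 = (w a j).1 ∧ lp a j < (B ^ (S a j / p)) (i' (a - 1) j) (I a j) then lp a j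
    else (w a j).1
  let z : ℤ → ℤ → Sym J := fun c j => ⟨i' c j, lab (c - (w c j).2) j, (w c j).2, u' c j⟩
  have hu : ∀ c j, (u' c j : ZMod p) = f c j ∧ u' c j < p + 2 * (w c j).2 := fun c j =>
    ctr_spec j (fun c => hs c j) (fun c => hf c j) _ c rfl
  -- the beginning of the cycle
  have hback : ∀ c j, w (c - (w c j).2) j = ((w c j).1, 0) := by
    intro c j
    have := cycle_back (w := fun c => w c j) (fun c => hs c j) (w c j).2 c (w c j).1 rfl
      (w c j).2 le_rfl
    rw [this, Nat.sub_self]
  have hS : ∀ a j, (w a j).2 = 0 → 0 < S a j / p ∧ S a j / p ≤ 3 * p + 3 := by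
    intro a j ha
    have h1 : (w (a - 1) j).2 + 1 = len p (w (a - 1) j).1 := by
      rcases hs a j with ⟨h1, h2⟩ | ⟨h1, _⟩
      · rw [h2] at ha
        simp at ha
      · exact h1
    have h2 := (hu (a - 1) j).2
    have h3 := len_le p (w (a - 1) j).1
    have h4 := em_le (w a (j - 1)).1 (w a (j - 1)).2
    constructor
    · -- the counter has grown by at least `p - 1` since the last beginning
      have key : ∀ (n : ℕ) (c : ℤ) (m : ℕ), w c j = (m, n) →
          n ≤ ctr w f n c j + (if m = 1 ∧ 1 ≤ n then 1 else 0) := by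
        intro n
        induction n with
        | zero => intro c m _; omega
        | succ n ih =>
          intro c m hc
          have hpred : w (c - 1) j = (m, n) := by
            have := (hs c j).pred (n := n) (by rw [hc])
            rw [this, hc]
          have h5 := ih (c - 1) m hpred
          unfold ctr
          rw [hc]
          simp only
          have h6 : em m (n + 1) = if m = 1 ∧ n = 0 then 1 else 0 := by
            unfold em; simp
          rw [h6]
          by_cases hm : m = 1
          · cases n with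
            | zero => simp [hm]
            | succ n => simp [hm] at h5 ⊢; omega
          · simp [hm] at h5 ⊢; omega
      have h5 := key (w (a - 1) j).2 (a - 1) (w (a - 1) j).1 rfl
      apply Nat.div_pos _ hp
      show p ≤ u' (a - 1) j + 1 + em (w a (j - 1)).1 (w a (j - 1)).2
      have h6 : (w (a - 1) j).2 ≤ u' (a - 1) j +
        (if (w (a - 1) j).1 = 1 ∧ 1 ≤ (w (a - 1) j).2 then 1 else 0) := h5
      have h7 := le_len p (w (a - 1) j).1
      split_ifs at h6 <;> omega
    · refine (Nat.div_le_self _ _).trans ?_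
      show u' (a - 1) j + 1 + em (w a (j - 1)).1 (w a (j - 1)).2 ≤ 3 * p + 3
      omega
  have hlab : ∀ a j, (w a j).2 = 0 → min (lab a j) 2 = (w a j).1 ∧
      lab a j < (B ^ (S a j / p)) (i' (a - 1) j) (I a j) := by
    intro a j ha
    simp only [lab]
    split_ifs with h
    · exact h
    · have h1 := (hw a j).1
      refine ⟨by omega, ?_⟩
      exact lt_of_lt_of_le (by omega) (hB _ (hS a j ha).1 _ _)
  have hz2 : ∀ c j, (w (c - (w c j).2) j).2 = 0 := fun c j => by rw [hback]
  have hmin : ∀ c j, min (lab (c - (w c j).2) j) 2 = (w c j).1 := by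
    intro c j
    have := (hlab _ j (hz2 c j)).1
    rw [this, hback]
  have hlen : ∀ c j, len p (lab (c - (w c j).2) j) = len p (w c j).1 := by
    intro c j
    rw [← len_min, hmin]
  have hem : ∀ c j, em (lab (c - (w c j).2) j) (w c j).2 = em (w c j).1 (w c j).2 := by
    intro c j
    rw [← em_min, hmin]
  refine ⟨z, ⟨?_, ?_⟩, ?_⟩
  · intro c j
    refine ⟨?_, ?_, ?_⟩
    · show lab (c - (w c j).2) j < K
      have := (hlab _ j (hz2 c j)).2
      exact lt_of_lt_of_le this (hK _ (hS _ j (hz2 c j)).2 _ _)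
    · show (w c j).2 < len p (lab (c - (w c j).2) j)
      rw [hlen]
      exact (hw c j).2
    · exact (hu c j).2
  · intro c j
    rcases hs c j with ⟨h1, h2⟩ | ⟨h1, h2, h3⟩
    · left
      have hq : (w c j).2 = (w (c - 1) j).2 + 1 := by rw [h2]
      have ha : c - ((w c j).2 : ℤ) = c - 1 - ((w (c - 1) j).2 : ℤ) := by
        rw [hq]; push_cast; ring
      refine ⟨?_, ?_, ?_, hq, ?_⟩
      · show (w (c - 1) j).2 + 1 < len p (lab (c - 1 - (w (c - 1) j).2) j)
        rw [hlen]
        exact h1
      · show I (c - (w c j).2) j = I (c - 1 - (w (c - 1) j).2) j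
        rw [ha]
      · show lab (c - (w c j).2) j = lab (c - 1 - (w (c - 1) j).2) j
        rw [ha]
      · show u' c j + em (lab (c - (w c j).2) j) (w c j).2 = u' (c - 1) j + 1 +
          em (lab (c - (w c (j - 1)).2) (j - 1)) (w c (j - 1)).2
        rw [hem, hem]
        have h4 : u' c j = ctr w f ((w (c - 1) j).2 + 1) c j := by
          simp only [u']; rw [hq]
        rw [h4]
        unfold ctr
        have he := em_le (w c j).1 (w c j).2
        show ctr w f (w (c - 1) j).2 (c - 1) j + 1 + em (w c (j - 1)).1 (w c (j - 1)).2 -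
          em (w c j).1 (w c j).2 + em (w c j).1 (w c j).2 = ctr w f (w (c - 1) j).2 (c - 1) j + 1 +
            em (w c (j - 1)).1 (w c (j - 1)).2
        omega
    · right
      have ha : c - ((w c j).2 : ℤ) = c := by rw [h3]; simp
      have hSe : (z (c - 1) j).u + 1 + em (z c (j - 1)).l (z c (j - 1)).q = S c j := by
        show u' (c - 1) j + 1 + em (lab (c - (w c (j - 1)).2) (j - 1)) (w c (j - 1)).2 = _
        rw [hem]
      refine ⟨?_, h3, ?_, ?_⟩
      · show (w (c - 1) j).2 + 1 = len p (lab (c - 1 - (w (c - 1) j).2) j)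
        rw [hlen]
        exact h1
      · rw [hSe]
        show u' c j = S c j % p
        have h4 : u' c j = (f c j).val := by
          simp only [u']; rw [h3]; rfl
        rw [h4, hf c j]
        have h5 : ez p (w c j) = 0 := by
          unfold ez em; rw [h3]; simp
        have h6 : f (c - 1) j + 1 + ez p (w c (j - 1)) - ez p (w c j) = ((S c j : ℕ) : ZMod p) := by
          rw [h5, sub_zero, ← (hu (c - 1) j).1]
          simp only [S]
          push_cast
          rfl
        rw [h6, ZMod.val_natCast]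
      · rw [hSe]
        show lab (c - (w c j).2) j < (B ^ (S c j / p)) (i' (c - 1) j) (I (c - (w c j).2) j)
        rw [ha]
        exact (hlab c j h3).2
  · intro x hx c j hreg
    -- cycle data in the region
    have hq : ∀ c', c - (2 * p + 6) ≤ c' → c' ≤ c → (w c' j).2 = (x c' j).q := by
      intro c' h1 h2
      rw [(hreg c' h1 h2).1]
      rfl
    have hqle : ∀ c', (w c' j).2 ≤ p + 1 := by
      intro c'
      have h1 := (hw c' j).2
      have h2 := len_le p (w c' j).1
      omega
    have hi : ∀ c', c - (p + 4) ≤ c' → c' ≤ c → i' c' j = (x c' j).i := by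
      intro c' h1 h2
      have h3 := hqle c'
      simp only [i']
      rw [(hreg (c' - (w c' j).2) (by push_cast at *; omega) (by omega)).2.2.2.1]
      have h4 := hq c' (by push_cast at *; omega) h2
      rw [h4]
      exact (point_back hx j _ c' rfl _ le_rfl).1
    have hu2 : ∀ c', c - (p + 4) ≤ c' → c' ≤ c → u' c' j = (x c' j).u := by
      intro c' h1 h2
      have h3 := hqle c'
      have h4 := hq c' (by push_cast at *; omega) h2
      rw [ctr_point hp hx j _ c' rfl, ← h4]
      simp only [u']
      refine ctr_congr j _ c' (fun c'' h5 h6 => ?_)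
      have := hreg c'' (by push_cast at *; omega) (by omega)
      exact ⟨this.1, this.2.1, this.2.2.1⟩
    have h0 := hqle c
    have hqc := hq c (by push_cast; omega) le_rfl
    set a : ℤ := c - (w c j).2 with ha
    have haz : (x a j).q = 0 ∧ (x a j).i = (x c j).i ∧ (x a j).l = (x c j).l := by
      have := point_back hx j _ c rfl _ le_rfl
      rw [ha, hqc]
      refine ⟨?_, this.1, this.2.1⟩
      rw [this.2.2, Nat.sub_self]
    have hlabx : lab a j = (x a j).l := by
      have hgood : min (lp a j) 2 = (w a j).1 ∧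
          lp a j < (B ^ (S a j / p)) (i' (a - 1) j) (I a j) := by
        have h1 := hreg a (by push_cast at *; omega) (by omega)
        rw [h1.2.2.2.2, h1.2.2.2.1, h1.1]
        refine ⟨rfl, ?_⟩
        rw [hi (a - 1) (by push_cast at *; omega) (by omega)]
        rcases hx.2 a j with ⟨g1, g2, g3, g4, g5⟩ | ⟨g1, g2, g3, g4⟩
        · omega
        · have hSa : S a j = (x (a - 1) j).u + 1 + em (x a (j - 1)).l (x a (j - 1)).q := by
            simp only [S]
            rw [hu2 (a - 1) (by push_cast at *; omega) (by omega), h1.2.1]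
            unfold cyc
            simp only [em_min]
          rw [hSa]
          exact g4
      simp only [lab]
      rw [if_pos hgood, (hreg a (by push_cast at *; omega) (by omega)).2.2.2.2]
    refine Sym.ext ?_ ?_ ?_ ?_
    · exact hi c (by push_cast; omega) le_rfl
    · show lab a j = _
      rw [hlabx, haz.2.2]
    · exact hqc
    · exact hu2 c (by push_cast; omega) le_rfl

end Pool.Agent.Helper785.SIEnt
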