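import Pool.Agent.Helper785_SIEnt.Sys

/-!
# The cycles of a row: paths with prescribed ends, length and number of emissions modulo `p`
-/

set_option autoImplicit false

namespace Pool.Agent.Helper785.SIEnt

open Finset

/-- One step in the cycle structure; a state is a pair (type, position), the type is `0`, `1` or `2`. -/
def Step (p : ℕ) (s s' : ℕ × ℕ) : Prop :=
  (s.2 + 1 < len p s.1 ∧ s' = (s.1, s.2 + 1)) ∨ (s.2 + 1 = len p s.1 ∧ s'.1 ≤ 2 ∧ s'.2 = 0)

/-- Valid states. -/
def OV (p : ℕ) (s : ℕ × ℕ) : Prop := s.1 ≤ 2 ∧ s.2 < len p s.1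

theorem Step.ov {p : ℕ} {s s' : ℕ × ℕ} (h : Step p s s') (hs : OV p s) : OV p s' := by
  rcases h with ⟨h1, rfl⟩ | ⟨_, h2, h3⟩
  · exact ⟨hs.1, h1⟩
  · refine ⟨h2, ?_⟩
    have := le_len p s'.1
    omega

/-- `Reach p n s s' r`: there is a path of length `n` from `s` to `s'` with `r` emissions. -/
inductive Reach (p : ℕ) : ℕ → (ℕ × ℕ) → (ℕ × ℕ) → ℕ → Prop
  | refl (s : ℕ × ℕ) : Reach p 0 s s 0
  | step {n : ℕ} {s s' s'' : ℕ × ℕ} {r : ℕ} : Reach p n s s' r → Step p s' s'' →
      Reach p (n + 1) s s'' (r + em s''.1 s''.2)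

theorem Reach.trans {p n n' : ℕ} {s s' s'' : ℕ × ℕ} {r r' : ℕ} (h : Reach p n s s' r)
    (h' : Reach p n' s' s'' r') : Reach p (n + n') s s'' (r + r') := by
  induction h' with
  | refl _ => exact h
  | step _ h2 ih =>
    have := (ih h).step h2
    rw [← add_assoc, ← add_assoc]
    exact this

theorem Reach.exists_fun {p n : ℕ} {s s' : ℕ × ℕ} {r : ℕ} (h : Reach p n s s' r) :
    ∃ w : ℕ → ℕ × ℕ, w 0 = s ∧ w n = s' ∧ (∀ t < n, Step p (w t) (w (t + 1))) ∧
      ∑ t ∈ range n, em (w (t + 1)).1 (w (t + 1)).2 = r := by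
  induction h with
  | refl s => exact ⟨fun _ => s, rfl, rfl, by simp, by simp⟩
  | @step n s s' s'' r h1 h2 ih =>
    obtain ⟨w, hw0, hwn, hws, hwr⟩ := ih
    refine ⟨fun t => if t ≤ n then w t else s'', ?_, ?_, ?_, ?_⟩
    · simp [hw0]
    · simp
    · intro t ht
      rcases Nat.lt_or_ge t n with h | h
      · simp only [h.le, if_true, show t + 1 ≤ n from h]
        exact hws t h
      · have : t = n := by omega
        subst this
        simp only [le_refl, if_true, show ¬ (t + 1 ≤ t) by omega, if_false]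
        rw [hwn]
        exact h2
    · rw [Finset.sum_range_succ]
      congr 1
      · rw [← hwr]
        refine Finset.sum_congr rfl (fun t ht => ?_)
        rw [Finset.mem_range] at ht
        simp only [show t + 1 ≤ n from ht, if_true]
      · simp

/-- Inside a cycle. -/
theorem reach_adv (p m q : ℕ) : ∀ k : ℕ, q + k < len p m → ∃ r, Reach p k (m, q) (m, q + k) r ∧
    (q = 0 → r = if m = 1 ∧ 1 ≤ k then 1 else 0) := by
  intro k
  induction k with
  | zero => intro _; exact ⟨0, Reach.refl _, by simp⟩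
  | succ k ih =>
    intro hk
    obtain ⟨r, hr, hr2⟩ := ih (by omega)
    refine ⟨r + em m (q + k + 1), hr.step (Or.inl ⟨hk, rfl⟩), ?_⟩
    intro hq
    rw [hr2 hq]
    unfold em
    subst hq
    by_cases hm : m = 1
    · cases k with
      | zero => simp [hm]
      | succ k => simp [hm]
    · simp [hm]

/-- One full cycle. -/
theorem reach_cycle (p m m' : ℕ) (hp : 0 < p) (hm' : m' ≤ 2) :
    Reach p (len p m') (m, len p m - 1) (m', len p m' - 1) (if m' = 1 then 1 else 0) := by
  have h1 := le_len p m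
  have h1' := le_len p m'
  have hs : Step p (m, len p m - 1) (m', 0) := by
    right
    refine ⟨?_, hm', rfl⟩
    simp only
    omega
  obtain ⟨r, hr, hr2⟩ := reach_adv p m' 0 (len p m' - 1) (by omega)
  have h2 := ((Reach.refl (p := p) (m, len p m - 1)).step hs).trans hr
  have e1 : 0 + 1 + (len p m' - 1) = len p m' := by omega
  rw [e1] at h2
  have e2 : (0 + em (m', 0).1 (m', 0).2 + r) = if m' = 1 then 1 else 0 := by
    rw [hr2 rfl]
    unfold em
    have h3 : 1 ≤ len p m' - 1 := by omega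
    simp [h3]
  rw [e2, Nat.zero_add] at h2
  exact h2

/-- Several full cycles of one type. -/
theorem reach_cycles (p m' : ℕ) (hp : 0 < p) (hm' : m' ≤ 2) : ∀ (n m : ℕ), m ≤ 2 →
    ∃ m'' ≤ 2, Reach p (n * len p m') (m, len p m - 1) (m'', len p m'' - 1)
      (n * (if m' = 1 then 1 else 0)) := by
  intro n
  induction n with
  | zero =>
    intro m hm
    refine ⟨m, hm, ?_⟩
    simp only [Nat.zero_mul]
    exact Reach.refl _
  | succ n ih =>
    intro m hm
    obtain ⟨m'', h1, h2⟩ := ih m hm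
    refine ⟨m', hm', ?_⟩
    have := h2.trans (reach_cycle p m'' m' hp hm')
    rw [Nat.succ_mul, Nat.succ_mul]
    exact this

/-- The length of the connecting paths. -/
def LL (p : ℕ) : ℕ := 2 * (p + 1) * (p + 1) + 2 * p + 3

/-- Paths of length `LL p` with prescribed ends and prescribed number of emissions modulo `p`. -/
theorem exists_path {p : ℕ} (hp : 0 < p) {s s' : ℕ × ℕ} (hs : OV p s) (hs' : OV p s')
    (r : ZMod p) :
    ∃ w : ℕ → ℕ × ℕ, w 0 = s ∧ w (LL p) = s' ∧ (∀ t < LL p, Step p (w t) (w (t + 1))) ∧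
      ((∑ t ∈ range (LL p), em (w (t + 1)).1 (w (t + 1)).2 : ℕ) : ZMod p) = r := by
  have : NeZero p := ⟨hp.ne'⟩
  obtain ⟨m, q⟩ := s
  obtain ⟨m', q'⟩ := s'
  obtain ⟨hm, hq⟩ := hs
  obtain ⟨hm', hq'⟩ := hs'
  simp only at hm hq hm' hq'
  have hl1 := len_le p m
  have hl1' := len_le p m'
  have hl2 := le_len p m'
  -- the first part
  obtain ⟨r1, hr1, -⟩ := reach_adv p m q (len p m - 1 - q) (by omega)
  have e1 : q + (len p m - 1 - q) = len p m - 1 := by omega
  rw [e1] at hr1
  -- the last part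
  obtain ⟨r2, hr2, -⟩ := reach_adv p m' 0 q' (by omega)
  rw [Nat.zero_add] at hr2
  set T : ℕ := LL p - (len p m - 1 - q) - (q' + 1) with hT
  have hTlow : 2 * (p + 1) * (p + 1) ≤ T := by
    rw [hT]; unfold LL; omega
  set n1 : ℕ := T % (p + 1) with hn1
  set n2 : ℕ := (r - (r1 : ZMod p) - (r2 : ZMod p)).val with hn2
  have hn1' : n1 < p + 1 := Nat.mod_lt _ (Nat.succ_pos _)
  have hn2' : n2 < p := ZMod.val_lt _
  have hTdiv : 2 * (p + 1) ≤ T / (p + 1) := by
    rw [Nat.le_div_iff_mul_le (Nat.succ_pos _)]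
    exact hTlow
  set n0 : ℕ := T / (p + 1) - n1 - n2 with hn0
  have hTsum : n0 * (p + 1) + n1 * (p + 2) + n2 * (p + 1) = T := by
    have h1 : n0 + n1 + n2 = T / (p + 1) := by omega
    have h2 := Nat.div_add_mod T (p + 1)
    calc n0 * (p + 1) + n1 * (p + 2) + n2 * (p + 1) = (p + 1) * (n0 + n1 + n2) + n1 := by ring
      _ = (p + 1) * (T / (p + 1)) + T % (p + 1) := by rw [h1]
      _ = T := h2
  have l0 : len p 0 = p + 2 := by simp [len]
  have l1 : len p 1 = p + 1 := by simp [len]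
  have l2 : len p 2 = p + 1 := by simp [len]
  obtain ⟨ma, hma, ra⟩ := reach_cycles p 2 hp (le_refl 2) n0 m hm
  obtain ⟨mb, hmb, rb⟩ := reach_cycles p 0 hp (by omega) n1 ma hma
  obtain ⟨mc, hmc, rc⟩ := reach_cycles p 1 hp (by omega) n2 mb hmb
  have hstep : Step p (mc, len p mc - 1) (m', 0) := by
    right
    refine ⟨?_, hm', rfl⟩
    have := le_len p mc
    simp only
    omega
  have htot := (((((hr1.trans ra).trans rb).trans rc).step hstep).trans hr2)
  simp only [l0, l1, l2, show (2 : ℕ) ≠ 1 by norm_num, show (0 : ℕ) ≠ 1 by norm_num, if_false,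
    if_true, mul_zero, mul_one, add_zero] at htot
  have hlen : len p m - 1 - q + n0 * (p + 1) + n1 * (p + 2) + n2 * (p + 1) + 1 + q' = LL p := by
    have : (len p m - 1 - q) + (q' + 1) ≤ LL p := by unfold LL; omega
    omega
  rw [hlen] at htot
  obtain ⟨w, hw0, hwn, hws, hwr⟩ := htot.exists_fun
  refine ⟨w, hw0, hwn, hws, ?_⟩
  rw [hwr]
  have hem : em m' 0 = 0 := by unfold em; simp
  rw [hem]
  push_cast
  rw [hn2, ZMod.natCast_zmod_val]
  ring

end Pool.Agent.Helper785.SIEnt
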