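import Pool.Agent.Helper785_SIEnt.Realize

/-!
# Strong irreducibility of the corner rule
-/

set_option autoImplicit false

namespace Pool.Agent.Helper785.SIEnt

open Finset

variable {J : Type} [Fintype J] [DecidableEq J]

theorem div_le_of_near {L : ℤ} (hL : 0 < L) {c c' : ℤ} (h1 : c - L ≤ c') (h2 : c' ≤ c) :
    c / L - 1 ≤ c' / L ∧ c' / L ≤ c / L := by
  constructor
  · have h3 : (c - L) / L ≤ c' / L := Int.ediv_le_ediv hL h1
    have h4 : (c - L) / L = c / L - 1 := by
      rw [show c - L = c + (-1) * L by ring, Int.add_mul_ediv_right _ _ hL.ne']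
      ring
    omega
  · exact Int.ediv_le_ediv hL h2

theorem blk_bounds {L : ℤ} (hL : 0 < L) (c : ℤ) : c / L * L ≤ c ∧ c ≤ (c / L + 1) * L := by
  have h1 := Int.emod_add_mul_ediv c L
  have h2 := Int.emod_nonneg c hL.ne'
  have h3 := Int.emod_lt_of_pos c hL
  constructor <;> nlinarith

theorem point_si {B : Matrix J J ℕ} {p K : ℕ} (hp : 0 < p)
    (hB : ∀ e, 0 < e → ∀ i j, 3 ≤ (B ^ e) i j)
    (hK : ∀ e ≤ 3 * p + 3, ∀ i j, (B ^ e) i j ≤ K)
    {x y : ℤ → ℤ → Sym J} (hx : Point B p K x) (hy : Point B p K y) (F G : Set (ℤ × ℤ))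
    (hFG : ∀ u ∈ F, ∀ v ∈ G, 5 * (LL p : ℤ) ≤ |u.1 - v.1| ∨ 5 * (LL p : ℤ) ≤ |u.2 - v.2|) :
    ∃ z, Point B p K z ∧ (∀ u ∈ F, z u.1 u.2 = x u.1 u.2) ∧ (∀ v ∈ G, z v.1 v.2 = y v.1 v.2) := by
  classical
  have hL : 0 < LL p := by unfold LL; omega
  have hL6 : 2 * p + 6 ≤ LL p := by
    unfold LL
    nlinarith
  obtain ⟨ψ, hψ1, hψ2⟩ := exists_potential (fun c j => flow p x c j - flow p y c j)
    (fun c j => ez p (cyc x c j) - ez p (cyc y c j)) (by
      intro c j
      have h1 := flow_eq hx (c + 1) j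
      have h2 := flow_eq hy (c + 1) j
      rw [add_sub_cancel_right] at h1 h2
      rw [h1, h2]
      ring)
  let S : ℤ → ℤ → Prop := fun k j => ∃ u ∈ F, |k - u.1 / (LL p : ℤ)| ≤ 2 ∧ |j - u.2| ≤ 2
  have hrow : ∀ j : ℤ, _ := fun j => row_glue hp (fun c => cyc x c j) (fun c => cyc y c j)
    (fun c => cyc_ov hx.1 c j) (fun c => by
      have := cyc_step hx (c + 1) j
      rwa [add_sub_cancel_right] at this)
    (fun c => cyc_ov hy.1 c j) (fun c => by
      have := cyc_step hy (c + 1) j
      rwa [add_sub_cancel_right] at this)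
    (fun c => ψ c j) (fun c => hψ2 c j) (fun k => S k j)
  choose wz ψz hwv hws hψz hX hY using hrow
  obtain ⟨z, hz, hzz⟩ := realize hp hB hK (fun c j => wz j c)
    (fun c j => flow p y c j + ψz j c - ψz (j - 1) c)
    (fun c j => if S (c / (LL p : ℤ)) j then (x c j).i else (y c j).i)
    (fun c j => if S (c / (LL p : ℤ)) j then (x c j).l else (y c j).l)
    (fun c j => hwv j c)
    (fun c j => by
      have := hws j (c - 1)
      rwa [sub_add_cancel] at this)
    (fun c j => by
      have h1 := flow_eq hy c j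
      have h2 := hψz j (c - 1)
      have h3 := hψz (j - 1) (c - 1)
      rw [sub_add_cancel] at h2 h3
      rw [h1, h2, h3]
      ring)
  refine ⟨z, hz, ?_, ?_⟩
  · rintro ⟨c, j⟩ hu
    refine hzz x hx c j (fun c' h1 h2 => ?_)
    obtain ⟨h3, h4⟩ := div_le_of_near (L := (LL p : ℤ)) (by exact_mod_cast hL) (c := c) (c' := c')
      (by push_cast at *; omega) h2
    obtain ⟨h5, h6⟩ := blk_bounds (L := (LL p : ℤ)) (by exact_mod_cast hL) c'
    have hS : ∀ k' j' : ℤ, |k' - c / (LL p : ℤ)| ≤ 2 → |j' - j| ≤ 2 → S k' j' :=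
      fun k' j' g1 g2 => ⟨(c, j), hu, g1, g2⟩
    have a1 : S (c' / (LL p : ℤ)) j := hS _ _ (by rw [abs_le]; constructor <;> omega) (by simp)
    have a2 : S (c' / (LL p : ℤ) + 1) j := hS _ _ (by rw [abs_le]; constructor <;> omega) (by simp)
    have a3 : S (c' / (LL p : ℤ)) (j - 1) :=
      hS _ _ (by rw [abs_le]; constructor <;> omega) (by simp)
    have a4 : S (c' / (LL p : ℤ) + 1) (j - 1) :=
      hS _ _ (by rw [abs_le]; constructor <;> omega) (by simp)
    obtain ⟨b1, b2⟩ := hX j _ c' a1 a2 h5 h6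
    obtain ⟨b3, b4⟩ := hX (j - 1) _ c' a3 a4 h5 h6
    refine ⟨b1, b3, ?_, ?_, ?_⟩
    · rw [b2, b4]
      have := hψ1 c' j
      linear_combination -this
    · simp only [a1, if_true]
    · simp only [a1, if_true]
  · rintro ⟨c, j⟩ hv
    refine hzz y hy c j (fun c' h1 h2 => ?_)
    obtain ⟨h3, h4⟩ := div_le_of_near (L := (LL p : ℤ)) (by exact_mod_cast hL) (c := c) (c' := c')
      (by push_cast at *; omega) h2
    obtain ⟨h5, h6⟩ := blk_bounds (L := (LL p : ℤ)) (by exact_mod_cast hL) c'
    obtain ⟨h7, h8⟩ := blk_bounds (L := (LL p : ℤ)) (by exact_mod_cast hL) c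
    have hS : ∀ k' j' : ℤ, |k' - c / (LL p : ℤ)| ≤ 2 → |j' - j| ≤ 2 → ¬ S k' j' := by
      rintro k' j' g1 g2 ⟨⟨c'', j''⟩, hu, g3, g4⟩
      simp only at g3 g4
      obtain ⟨h9, h10⟩ := blk_bounds (L := (LL p : ℤ)) (by exact_mod_cast hL) c''
      have h11 := Int.emod_add_mul_ediv c'' (LL p : ℤ)
      have h12 := Int.emod_lt_of_pos c'' (show (0 : ℤ) < (LL p : ℤ) by exact_mod_cast hL)
      have h13 := Int.emod_add_mul_ediv c (LL p : ℤ)
      have h14 := Int.emod_lt_of_pos c (show (0 : ℤ) < (LL p : ℤ) by exact_mod_cast hL)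
      have h15 := Int.emod_nonneg c (show (LL p : ℤ) ≠ 0 by omega)
      have h16 := Int.emod_nonneg c'' (show (LL p : ℤ) ≠ 0 by omega)
      rw [abs_le] at g1 g2 g3 g4
      have g5 : c'' / (LL p : ℤ) - c / (LL p : ℤ) ≤ 4 := by omega
      have g6 : -4 ≤ c'' / (LL p : ℤ) - c / (LL p : ℤ) := by omega
      have hLp : (0 : ℤ) < (LL p : ℤ) := by exact_mod_cast hL
      rcases hFG _ hu _ hv with h | h
      · simp only at h
        have : |c'' - c| < 5 * (LL p : ℤ) := by
          rw [abs_lt]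
          constructor <;> nlinarith
        omega
      · simp only at h
        have : |j'' - j| ≤ 4 := by
          rw [abs_le]
          constructor <;> omega
        omega
    have a1 : ¬ S (c' / (LL p : ℤ)) j := hS _ _ (by rw [abs_le]; constructor <;> omega) (by simp)
    have a2 : ¬ S (c' / (LL p : ℤ) + 1) j := hS _ _ (by rw [abs_le]; constructor <;> omega) (by simp)
    have a3 : ¬ S (c' / (LL p : ℤ)) (j - 1) :=
      hS _ _ (by rw [abs_le]; constructor <;> omega) (by simp)
    have a4 : ¬ S (c' / (LL p : ℤ) + 1) (j - 1) :=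
      hS _ _ (by rw [abs_le]; constructor <;> omega) (by simp)
    obtain ⟨b1, b2⟩ := hY j _ c' a1 a2 h5 h6
    obtain ⟨b3, b4⟩ := hY (j - 1) _ c' a3 a4 h5 h6
    refine ⟨b1, b3, ?_, ?_, ?_⟩
    · rw [b2, b4]
      ring
    · simp only [a1, if_false]
    · simp only [a1, if_false]

theorem point_nonempty [Nonempty J] {B : Matrix J J ℕ} {p K : ℕ} (hp : 0 < p)
    (hB : ∀ e, 0 < e → ∀ i j, 3 ≤ (B ^ e) i j)
    (hK : ∀ e ≤ 3 * p + 3, ∀ i j, (B ^ e) i j ≤ K) : ∃ z, Point B p K z := by
  classical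
  have l2 : len p 2 = p + 1 := by simp [len]
  have hpos : (0 : ℤ) < (p : ℤ) + 1 := by omega
  have hez : ∀ n : ℕ, ez p (2, n) = 0 := by intro n; unfold ez em; simp
  obtain ⟨z, hz, -⟩ := realize hp hB hK (fun c _ => (2, (c % ((p : ℤ) + 1)).toNat))
    (fun c _ => (c : ZMod p)) (fun _ _ => Classical.arbitrary J) (fun _ _ => 0)
    (fun c _ => by
      refine ⟨le_refl 2, ?_⟩
      simp only
      rw [l2]
      have h1 := Int.emod_nonneg c hpos.ne'
      have h2 := Int.emod_lt_of_pos c hpos
      omega)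
    (fun c _ => by
      have h1 := Int.emod_nonneg (c - 1) hpos.ne'
      have h2 := Int.emod_lt_of_pos (c - 1) hpos
      have h3 := Int.emod_add_mul_ediv (c - 1) ((p : ℤ) + 1)
      set r := (c - 1) % ((p : ℤ) + 1) with hr
      set k := (c - 1) / ((p : ℤ) + 1) with hk
      rcases lt_or_ge (r + 1) ((p : ℤ) + 1) with h | h
      · left
        have hc : c % ((p : ℤ) + 1) = r + 1 := by
          have : c = (r + 1) + ((p : ℤ) + 1) * k := by linarith
          rw [this, Int.add_mul_emod_self_left]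
          exact Int.emod_eq_of_lt (by omega) h
        constructor
        · simp only
          rw [l2]
          omega
        · simp only
          rw [hc]
          congr 1
          omega
      · right
        have hc : c % ((p : ℤ) + 1) = 0 := by
          have h5 : r + 1 = (p : ℤ) + 1 := by omega
          have : c = 0 + ((p : ℤ) + 1) * (k + 1) := by linarith
          rw [this, Int.add_mul_emod_self_left]
          simp
        refine ⟨?_, le_refl 2, ?_⟩
        · simp only
          rw [l2]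
          omega
        · simp only
          rw [hc]
          rfl)
    (fun c _ => by
      simp only [hez]
      push_cast
      ring)
  exact ⟨z, hz⟩

/-- The corner rule, on the finite alphabet of the valid symbols. -/
def sysRule (B : Matrix J J ℕ) (p K : ℕ) (a b c : {a : Sym J // Valid p K a}) : Prop :=
  Rule B p a.1 b.1 c.1

theorem point_of_mem {B : Matrix J J ℕ} {p K : ℕ}
    {x : (Fin 2 → ℤ) → {a : Sym J // Valid p K a}} (hx : x ∈ cornerSet (sysRule B p K)) :
    Point B p K (fun c j => (x ![c, j]).1) :=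
  ⟨fun c j => (x ![c, j]).2, fun c j => hx c j⟩

/-- The configuration of a point. -/
def ofPoint {B : Matrix J J ℕ} {p K : ℕ} {z : ℤ → ℤ → Sym J} (hz : Point B p K z) :
    (Fin 2 → ℤ) → {a : Sym J // Valid p K a} := fun v => ⟨z (v 0) (v 1), hz.1 _ _⟩

theorem ofPoint_mem {B : Matrix J J ℕ} {p K : ℕ} {z : ℤ → ℤ → Sym J} (hz : Point B p K z) :
    ofPoint hz ∈ cornerSet (sysRule B p K) := by
  intro i j
  exact hz.2 i j

theorem sys_si {B : Matrix J J ℕ} {p K : ℕ} (hp : 0 < p)
    (hB : ∀ e, 0 < e → ∀ i j, 3 ≤ (B ^ e) i j)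
    (hK : ∀ e ≤ 3 * p + 3, ∀ i j, (B ^ e) i j ≤ K) :
    StronglyIrreducible (cornerSet (sysRule B p K)) := by
  refine ⟨5 * LL p, ?_, fun F G hFG x hx y hy => ?_⟩
  · unfold LL; omega
  · obtain ⟨z, hz, h1, h2⟩ := point_si hp hB hK (point_of_mem hx) (point_of_mem hy)
      {u | ![u.1, u.2] ∈ F} {u | ![u.1, u.2] ∈ G} (by
        intro u hu v hv
        obtain ⟨i, hi⟩ := hFG _ hu _ hv
        fin_cases i
        · left
          simpa using hi
        · right
          simpa using hi)
    refine ⟨ofPoint hz, ofPoint_mem hz, ?_, ?_⟩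
    · intro u hu
      apply Subtype.ext
      have := h1 (u 0, u 1) (by
        show ![u 0, u 1] ∈ F
        rw [vec2_eta]; exact hu)
      simp only [vec2_eta] at this
      exact this
    · intro u hu
      apply Subtype.ext
      have := h2 (u 0, u 1) (by
        show ![u 0, u 1] ∈ G
        rw [vec2_eta]; exact hu)
      simp only [vec2_eta] at this
      exact this

/-- The entropies that are obtained from a matrix with large entries and a Perron vector. -/
theorem log_mem_entropySet_two [Nonempty J] (B : Matrix J J ℕ) (hB : ∀ i j, 3 ≤ B i j)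
    (v : J → ℝ) (hv : ∀ j, 0 < v j) (p : ℕ) (hp : 0 < p) (κ : ℝ) (hκ : 0 < κ)
    (hBv : ∀ i, ∑ j, (B i j : ℝ) * v j = κ ^ p * v i) : Real.log κ ∈ entropySet 2 := by
  classical
  have hB' : ∀ e, 0 < e → ∀ i j, 3 ≤ (B ^ e) i j := by
    intro e he
    induction e with
    | zero => omega
    | succ e ih =>
      intro i j
      rcases Nat.eq_zero_or_pos e with h | h
      · subst h
        simpa using hB i j
      · rw [pow_succ, Matrix.mul_apply]
        have h1 := ih h i (Classical.arbitrary J)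
        have h2 := hB (Classical.arbitrary J) j
        calc 3 ≤ (B ^ e) i (Classical.arbitrary J) * B (Classical.arbitrary J) j := by nlinarith
          _ ≤ ∑ k, (B ^ e) i k * B k j :=
            Finset.single_le_sum (f := fun k => (B ^ e) i k * B k j) (fun _ _ => Nat.zero_le _)
              (Finset.mem_univ _)
  set K : ℕ := ∑ e ∈ Finset.range (3 * p + 4), ∑ i, ∑ j, (B ^ e) i j with hKdef
  have hK : ∀ e ≤ 3 * p + 3, ∀ i j, (B ^ e) i j ≤ K := by
    intro e he i j
    calc (B ^ e) i j ≤ ∑ j, (B ^ e) i j :=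
          Finset.single_le_sum (f := fun j => (B ^ e) i j) (fun _ _ => Nat.zero_le _)
            (Finset.mem_univ j)
      _ ≤ ∑ i, ∑ j, (B ^ e) i j :=
          Finset.single_le_sum (f := fun i => ∑ j, (B ^ e) i j) (fun _ _ => Nat.zero_le _)
            (Finset.mem_univ i)
      _ ≤ K := Finset.single_le_sum (f := fun e => ∑ i, ∑ j, (B ^ e) i j)
            (fun _ _ => Nat.zero_le _) (Finset.mem_range.2 (by omega))
  have hfin : Finite {a : Sym J // Valid p K a} := finite_valid p K
  have := Fintype.ofFinite {a : Sym J // Valid p K a}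
  obtain ⟨L, hL⟩ := exists_sft_eq_cornerSet (sysRule B p K)
  have hne : (cornerSet (sysRule B p K)).Nonempty := by
    obtain ⟨z, hz⟩ := point_nonempty (K := K) hp hB' hK
    exact ⟨ofPoint hz, ofPoint_mem hz⟩
  refine ⟨{a : Sym J // Valid p K a}, hfin, L, ?_, ?_, ?_⟩
  · rw [hL]; exact hne
  · rw [hL]; exact sys_si hp hB' hK
  · rw [hL]
    exact hasEntropy_of_balanced (rule_balanced B p K hp v κ hBv hK) hκ
      (fun a => by unfold wt; have := hv a.1.i; positivity)
      (fun a => by unfold wb; positivity) hne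

end Pool.Agent.Helper785.SIEnt
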