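import Pool.Agent.Helper785_SIEnt.CornerEnt

/-!
# The corner rule

Rows are made of cycles of length `p + 1` or `p + 2`. A symbol `(i, l, q, u)` has a state `i` of
the matrix `B`, the label `l` chosen at the beginning of the current cycle, the position `q` in the
cycle, and a counter `u`. The counter grows by one in each step; a cycle with label `1` passes one
unit of its counter to the row above (at position `1`), and units that arrive from the row below are
added to the counter. At the beginning of a cycle the counter is reduced modulo `p`, and for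
each multiple of `p` which is taken away, one step of the matrix `B` is made.
-/

set_option autoImplicit false

namespace Pool.Agent.Helper785.SIEnt

open Filter Finset

variable {J : Type}

/-- Symbols. -/
@[ext] structure Sym (J : Type) where
  /-- state of the matrix -/
  i : J
  /-- label of the cycle -/
  l : ℕ
  /-- position in the cycle -/
  q : ℕ
  /-- counter -/
  u : ℕ

/-- The length of the cycles with label `l`. -/
def len (p l : ℕ) : ℕ := if l = 0 then p + 2 else p + 1

/-- The number of units that are passed to the row above. -/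
def em (l q : ℕ) : ℕ := if l = 1 ∧ q = 1 then 1 else 0

theorem em_le (l q : ℕ) : em l q ≤ 1 := by unfold em; split_ifs <;> omega

theorem len_le (p l : ℕ) : len p l ≤ p + 2 := by unfold len; split_ifs <;> omega

theorem le_len (p l : ℕ) : p + 1 ≤ len p l := by unfold len; split_ifs <;> omega

/-- Valid symbols. -/
def Valid (p K : ℕ) (a : Sym J) : Prop := a.l < K ∧ a.q < len p a.l ∧ a.u < p + 2 * a.q

/-- The corner rule. -/
def Rule [Fintype J] [DecidableEq J] (B : Matrix J J ℕ) (p : ℕ) (a b c : Sym J) : Prop :=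
  (a.q + 1 < len p a.l ∧ c.i = a.i ∧ c.l = a.l ∧ c.q = a.q + 1 ∧
    c.u + em c.l c.q = a.u + 1 + em b.l b.q) ∨
  (a.q + 1 = len p a.l ∧ c.q = 0 ∧ c.u = (a.u + 1 + em b.l b.q) % p ∧
    c.l < (B ^ ((a.u + 1 + em b.l b.q) / p)) a.i c.i)

instance finite_valid [Finite J] (p K : ℕ) : Finite {a : Sym J // Valid p K a} := by
  let f : {a : Sym J // Valid p K a} → J × Fin K × Fin (p + 2) × Fin (p + 2 * (p + 2)) := fun a =>
    (a.1.i, ⟨a.1.l, a.2.1⟩, ⟨a.1.q, lt_of_lt_of_le a.2.2.1 (len_le _ _)⟩,
      ⟨a.1.u, by have h1 := a.2.2.1; have h2 := a.2.2.2; have h3 := len_le p a.1.l; omega⟩)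
  refine Finite.of_injective f ?_
  intro a b h
  simp only [f, Prod.mk.injEq, Fin.mk.injEq] at h
  apply Subtype.ext
  exact Sym.ext h.1 h.2.1 h.2.2.1 h.2.2.2

theorem pow_mulVec [Fintype J] [DecidableEq J] (B : Matrix J J ℕ) (v : J → ℝ) (μ : ℝ)
    (hv : ∀ i, ∑ j, (B i j : ℝ) * v j = μ * v i) (e : ℕ) (i : J) :
    ∑ j, ((B ^ e) i j : ℝ) * v j = μ ^ e * v i := by
  induction e generalizing i with
  | zero =>
    simp [Matrix.one_apply]
  | succ e ih =>
    have : ∀ j, ((B ^ (e + 1)) i j : ℝ) = ∑ k, (B i k : ℝ) * ((B ^ e) k j : ℝ) := by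
      intro j
      rw [pow_succ', Matrix.mul_apply]
      push_cast
      rfl
    simp only [this, Finset.sum_mul]
    rw [Finset.sum_comm]
    have h2 : ∀ k, ∑ j, (B i k : ℝ) * ((B ^ e) k j : ℝ) * v j = (B i k : ℝ) * (μ ^ e * v k) := by
      intro k
      rw [← ih k, Finset.mul_sum]
      exact Finset.sum_congr rfl (fun j _ => by ring)
    rw [Finset.sum_congr rfl (fun k _ => h2 k)]
    have h3 : ∑ k, (B i k : ℝ) * (μ ^ e * v k) = μ ^ e * ∑ k, (B i k : ℝ) * v k := by
      rw [Finset.mul_sum]
      exact Finset.sum_congr rfl (fun j _ => by ring)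
    rw [h3, hv i]
    ring

/-- The weight of the right side of a symbol. -/
noncomputable def wt (v : J → ℝ) (κ : ℝ) (a : Sym J) : ℝ := v a.i * κ ^ a.u

/-- The weight of the upper side of a symbol. -/
noncomputable def wb (κ : ℝ) (a : Sym J) : ℝ := κ ^ em a.l a.q

theorem rule_balanced [Fintype J] [DecidableEq J] (B : Matrix J J ℕ) (p K : ℕ) (hp : 0 < p)
    (v : J → ℝ) (κ : ℝ) (hv : ∀ i, ∑ j, (B i j : ℝ) * v j = κ ^ p * v i)
    (hK : ∀ e ≤ 3 * p + 3, ∀ i j, (B ^ e) i j ≤ K) [Fintype {a : Sym J // Valid p K a}] :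
    Balanced (A := {a : Sym J // Valid p K a}) (fun a b c => Rule B p a.1 b.1 c.1)
      (fun a => wt v κ a.1) (fun a => wb κ a.1) κ := by
  classical
  unfold Balanced
  rintro ⟨a, ha⟩ ⟨b, hb⟩
  simp only
  obtain ⟨ha1, ha2, ha3⟩ := ha
  have hlen := le_len p a.l
  have hlen2 := len_le p a.l
  have heb := em_le b.l b.q
  rcases Nat.lt_or_ge (a.q + 1) (len p a.l) with hq | hq
  · have hec := em_le a.l (a.q + 1)
    have hval : Valid p K (⟨a.i, a.l, a.q + 1, a.u + 1 + em b.l b.q - em a.l (a.q + 1)⟩ : Sym J) := by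
      refine ⟨ha1, hq, ?_⟩
      show a.u + 1 + em b.l b.q - em a.l (a.q + 1) < p + 2 * (a.q + 1)
      omega
    rw [Finset.sum_eq_single (⟨⟨a.i, a.l, a.q + 1, a.u + 1 + em b.l b.q - em a.l (a.q + 1)⟩,
      hval⟩ : {a : Sym J // Valid p K a})]
    · have hR : Rule B p a b ⟨a.i, a.l, a.q + 1, a.u + 1 + em b.l b.q - em a.l (a.q + 1)⟩ := by
        left
        refine ⟨hq, rfl, rfl, rfl, ?_⟩
        simp only
        omega
      rw [if_pos hR]
      unfold wt wb
      simp only
      have e1 : κ ^ (a.u + 1 + em b.l b.q - em a.l (a.q + 1)) * κ ^ em a.l (a.q + 1) =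
          κ ^ (a.u + 1 + em b.l b.q) := by
        rw [← pow_add]; congr 1; omega
      rw [mul_assoc, e1, pow_add, pow_succ]
      ring
    · rintro ⟨c, hc⟩ _ hne
      rw [if_neg]
      rintro (⟨_, h1, h2, h3, h4⟩ | ⟨h1, _⟩)
      · apply hne
        apply Subtype.ext
        refine Sym.ext h1 h2 h3 ?_
        show c.u = a.u + 1 + em b.l b.q - em a.l (a.q + 1)
        have h5 : c.u + em c.l c.q = a.u + 1 + em b.l b.q := h4
        rw [show c.l = a.l from h2, show c.q = a.q + 1 from h3] at h5
        omega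
      · omega
    · intro h
      exact absurd (Finset.mem_univ _) h
  · have hq' : a.q + 1 = len p a.l := by omega
    set S := a.u + 1 + em b.l b.q with hS
    have he : S / p ≤ 3 * p + 3 := by
      refine (Nat.div_le_self _ _).trans ?_
      omega
    have hval : ∀ (j : J) (l : ℕ), l < (B ^ (S / p)) a.i j →
        Valid p K (⟨j, l, 0, S % p⟩ : Sym J) := by
      intro j l hl
      refine ⟨lt_of_lt_of_le hl (hK _ he _ _), ?_, ?_⟩
      · show 0 < len p l
        have := le_len p l
        omega
      · show S % p < p + 2 * 0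
        have := Nat.mod_lt S hp
        omega
    rw [← Finset.sum_filter]
    have hsum : ∑ x ∈ (Finset.univ : Finset J).sigma
          (fun j => Finset.range ((B ^ (S / p)) a.i j)), v x.1 * κ ^ (S % p) =
        ∑ c ∈ (Finset.univ : Finset {a : Sym J // Valid p K a}).filter
          (fun c => Rule B p a b c.1), wt v κ c.1 * wb κ c.1 := by
      refine Finset.sum_bij (fun (x : Σ _ : J, ℕ) hx => (⟨⟨x.1, x.2, 0, S % p⟩,
        hval x.1 x.2 (by simpa using hx)⟩ : {a : Sym J // Valid p K a})) ?_ ?_ ?_ ?_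
      · intro x hx
        rw [Finset.mem_filter]
        refine ⟨Finset.mem_univ _, ?_⟩
        right
        refine ⟨hq', rfl, rfl, ?_⟩
        simpa using hx
      · intro x hx y hy h
        have := Subtype.ext_iff.1 h
        simp only [Sym.mk.injEq] at this
        rcases x with ⟨x1, x2⟩
        rcases y with ⟨y1, y2⟩
        simp only at this
        obtain ⟨h1, h2, _⟩ := this
        subst h1 h2
        rfl
      · rintro ⟨c, hc⟩ hR
        rw [Finset.mem_filter] at hR
        rcases hR.2 with ⟨h1, _⟩ | ⟨_, h2, h3, h4⟩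
        · omega
        · refine ⟨⟨c.i, c.l⟩, ?_, ?_⟩
          · simpa using h4
          · apply Subtype.ext
            exact Sym.ext rfl rfl h2.symm h3.symm
      · intro x hx
        unfold wt wb em
        simp
    rw [← hsum, Finset.sum_sigma]
    have h1 : ∀ j : J, ∑ _s ∈ Finset.range ((B ^ (S / p)) a.i j), v j * κ ^ (S % p) =
        κ ^ (S % p) * (((B ^ (S / p)) a.i j : ℝ) * v j) := by
      intro j
      rw [Finset.sum_const, Finset.card_range, nsmul_eq_mul]
      ring
    simp only [h1]
    rw [← Finset.mul_sum, pow_mulVec B v (κ ^ p) hv]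
    unfold wt wb
    have e2 : κ ^ (S % p) * ((κ ^ p) ^ (S / p) * v a.i) = κ ^ S * v a.i := by
      rw [← pow_mul, ← mul_assoc, ← pow_add, Nat.mod_add_div]
    rw [e2, hS, pow_add, pow_succ]
    ring

end Pool.Agent.Helper785.SIEnt
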